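import Mathlib
import Pool.Agent.Run7.h407.Energy2

/-!
Square integrable fields, the convective term and the Laplacian of a field.
-/

namespace Pool.Agent.Run7.h407

open Set Filter Topology MeasureTheory
open scoped ContDiff

/-- Square integrable fields. -/
def L2F (u : V → V) : Prop := ∀ i, MemLp (fun x => u x i) 2 volume

theorem CF.l2 {u : V → V} (hu : CF u) : L2F u := fun i =>
  (hu.smc i).continuous.memLp_of_hasCompactSupport (hu.csc i)

theorem L2F.add {u v : V → V} (hu : L2F u) (hv : L2F v) : L2F (fun x => u x + v x) :=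
  fun i => (hu i).add (hv i)

theorem L2F.sub {u v : V → V} (hu : L2F u) (hv : L2F v) : L2F (fun x => u x - v x) :=
  fun i => (hu i).sub (hv i)

theorem L2F.smul {u : V → V} (hu : L2F u) (c : ℝ) : L2F (fun x => c • u x) :=
  fun i => (hu i).const_mul c

theorem ipL_int {u v : V → V} (hu : L2F u) (hv : L2F v) :
    Integrable (fun x => ∑ i, u x i * v x i) volume := by
  apply integrable_finsetSum
  intro i _
  exact (hu i).integrable_mul (hv i)

theorem ipL_add {u1 u2 v : V → V} (h1 : L2F u1) (h2 : L2F u2) (hv : L2F v) :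
    ip (fun x => u1 x + u2 x) v = ip u1 v + ip u2 v := by
  unfold ip
  rw [← integral_add (ipL_int h1 hv) (ipL_int h2 hv)]
  congr 1
  funext x
  rw [← Finset.sum_add_distrib]
  congr 1
  funext i
  simp only [Pi.add_apply]
  ring

theorem ipL_sub {u1 u2 v : V → V} (h1 : L2F u1) (h2 : L2F u2) (hv : L2F v) :
    ip (fun x => u1 x - u2 x) v = ip u1 v - ip u2 v := by
  unfold ip
  rw [← integral_sub (ipL_int h1 hv) (ipL_int h2 hv)]
  congr 1
  funext x
  rw [← Finset.sum_sub_distrib]
  congr 1
  funext i
  simp only [Pi.sub_apply]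
  ring

/-- `(u·∇)v`. -/
noncomputable def adv (u v : V → V) (x : V) : V := fun i => ∑ j, u x j * pd j (fun y => v y i) x

/-- The Laplacian of a field. -/
noncomputable def lap (u : V → V) (x : V) : V := fun i => ∑ j, pd j (pd j (fun y => u y i)) x

theorem adv_CF {u v : V → V} (hu : CF u) (hv : CF v) : CF (adv u v) := by
  apply CF.of_comp
  · intro i
    unfold adv
    apply ContDiff.sum
    intro j _
    exact (hu.smc j).mul ((hv.smc i).pd j)
  · intro i
    apply HasCompactSupport.intro hu.cs.isCompact
    intro x hx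
    unfold adv
    rw [image_eq_zero_of_notMem_tsupport hx]
    simp

theorem lap_CF {u : V → V} (hu : CF u) : CF (lap u) := by
  apply CF.of_comp
  · intro i
    unfold lap
    apply ContDiff.sum
    intro j _
    exact ((hu.smc i).pd j).pd j
  · intro i
    apply HasCompactSupport.intro hu.cs.isCompact
    intro x hx
    have h1 : x ∉ tsupport (fun y => u y i) := by
      intro hcon
      apply hx
      apply closure_mono _ hcon
      intro y hy hy0
      apply hy
      show u y i = 0
      rw [hy0]
      rfl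
    unfold lap
    apply Finset.sum_eq_zero
    intro j _
    apply pd_eq_zero
    intro hcon
    exact h1 (pd_tsupport j hcon)

theorem ip_adv (u v w : V → V) : ip (adv u v) w = tri u v w := rfl

theorem ip_lap {u v : V → V} (hu : CF u) (hv : CF v) : ip (lap u) v = -Dir u v :=
  lap_ip hu.sm hv

theorem adv_dil {u v : V → V} (hv : ∀ i, Sm (fun y => v y i)) (s : ℝ) (x : V) :
    adv (dil s u) (dil s v) x = s ^ 5 • dil s (adv u v) x := by
  funext i
  show ∑ j, dil s u x j * pd j (fun y => dil s v y i) x
    = s ^ 5 * (s ^ 3 * ∑ j, u (s ^ 2 • x) j * pd j (fun y => v y i) (s ^ 2 • x))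
  simp_rw [pd_dil hv, dil_apply]
  rw [Finset.mul_sum, Finset.mul_sum]
  congr 1
  funext j
  ring

theorem lap_dil {u : V → V} (hu : ∀ i, Sm (fun y => u y i)) (s : ℝ) (x : V) :
    lap (dil s u) x = s ^ 4 • dil s (lap u) x := by
  funext i
  show ∑ j, pd j (pd j (fun y => dil s u y i)) x
    = s ^ 4 * (s ^ 3 * ∑ j, pd j (pd j (fun y => u y i)) (s ^ 2 • x))
  have h1 : ∀ j, pd j (pd j (fun y => dil s u y i)) x
      = s ^ 7 * pd j (pd j (fun y => u y i)) (s ^ 2 • x) := by
    intro j
    have e : pd j (fun y => dil s u y i) = fun y => s ^ 5 * pd j (fun y => u y i) (s ^ 2 • y) := by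
      funext y
      exact pd_dil hu s i j y
    have h2 : Sm (fun y : V => pd j (fun y => u y i) (s ^ 2 • y)) :=
      ((hu i).pd j).comp (contDiff_const_smul (s ^ 2))
    rw [e, pd_const_mul _ (h2.diff x), pd_comp_smul (((hu i).pd j).differentiable (by simp))]
    ring
  simp_rw [h1]
  rw [Finset.mul_sum, Finset.mul_sum]
  congr 1
  funext j
  ring

/-- If two fields vanish nearby alternatively, the convective term vanishes. -/
theorem adv_zero {u v : V → V} {x : V} (h : (∀ᶠ y in 𝓝 x, u y = 0) ∨ (∀ᶠ y in 𝓝 x, v y = 0)) :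
    adv u v x = 0 := by
  funext i
  unfold adv
  rcases h with h | h
  · rw [h.self_of_nhds]
    simp
  · have h1 : ∀ j, pd j (fun y => v y i) x = 0 := by
      intro j
      have : (fun y => v y i) =ᶠ[𝓝 x] fun _ => (0 : ℝ) := by
        filter_upwards [h] with y hy
        rw [hy]
        rfl
      rw [pd_congr this, pd_const]
    simp_rw [h1]
    simp

theorem lap_zero {u : V → V} {x : V} (h : ∀ᶠ y in 𝓝 x, u y = 0) : lap u x = 0 := by
  funext i
  unfold lap
  have h1 : ∀ j, pd j (pd j (fun y => u y i)) x = 0 := by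
    intro j
    have : pd j (fun y => u y i) =ᶠ[𝓝 x] fun _ => (0 : ℝ) := by
      filter_upwards [h.eventually_nhds] with y hy
      have h2 : (fun y => u y i) =ᶠ[𝓝 y] fun _ => (0 : ℝ) := by
        filter_upwards [hy] with z hz
        rw [hz]
        rfl
      rw [pd_congr h2, pd_const]
    rw [pd_congr this, pd_const]
  simp_rw [h1]
  simp

end Pool.Agent.Run7.h407
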