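import Mathlib
import Pool.Agent.Run7.h407.W.L2
import Pool.Agent.Run7.h407.Final

/-!
The constraint fields.
-/

namespace Pool.Agent.Run7.h407

open Set Filter Topology MeasureTheory
open scoped ContDiff

/-- The first constraint field. -/
noncomputable def Ga (μ ε β : ℝ) (ψ : V → V) (x : V) : V :=
  ip ψ ψ • adv ψ ψ x + ((ε * β) • dil μ ψ x - (β * (μ ^ 5)⁻¹) • dil μ⁻¹ ψ x)

/-- The second constraint field. -/
noncomputable def Gb (μ ε β : ℝ) (ψ : V → V) (x : V) : V :=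
  ip ψ ψ • (adv ψ (dil μ ψ) x + adv (dil μ ψ) ψ x) + (β • dil μ ψ x - (ε * β) • ψ x)

/-- The third constraint field. -/
noncomputable def Gc (ψ : V → V) (x : V) : V := ip ψ ψ • lap ψ x + Dir ψ ψ • ψ x

section

variable {μ ε β : ℝ} {ψ : V → V}

theorem CF.subf {u v : V → V} (hu : CF u) (hv : CF v) : CF (fun x => u x - v x) := by
  have h := hu.add (hv.smul (-1))
  have e : (fun x => u x - v x) = fun x => u x + (-1 : ℝ) • v x := by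
    funext x
    rw [neg_one_smul, sub_eq_add_neg]
  rw [e]
  exact h

theorem dil_lin (s a b c : ℝ) (u v w : V → V) (x : V) :
    dil s (fun y => a • u y + (b • v y - c • w y)) x
      = a • dil s u x + (b • dil s v x - c • dil s w x) := by
  unfold dil
  module

theorem dil_lin2 (s a b : ℝ) (u v : V → V) (x : V) :
    dil s (fun y => a • u y + b • v y) x = a • dil s u x + b • dil s v x := by
  unfold dil
  module

theorem dil_add (s : ℝ) (u v : V → V) (x : V) :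
    dil s (fun y => u y + v y) x = dil s u x + dil s v x := by
  unfold dil
  module

theorem ip_lin {u v w z : V → V} (hu : L2F u) (hv : L2F v) (hw : L2F w) (hz : L2F z) (a b c : ℝ) :
    ip (fun y => a • u y + (b • v y - c • w y)) z = a * ip u z + (b * ip v z - c * ip w z) := by
  rw [ipL_add (hu.smul a) ((hv.smul b).sub (hw.smul c)) hz,
    ipL_sub (hv.smul b) (hw.smul c) hz, ip_smul_left, ip_smul_left, ip_smul_left]

theorem ip_lin2 {u v z : V → V} (hu : L2F u) (hv : L2F v) (hz : L2F z) (a b : ℝ) :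
    ip (fun y => a • u y + b • v y) z = a * ip u z + b * ip v z := by
  rw [ipL_add (hu.smul a) (hv.smul b) hz, ip_smul_left, ip_smul_left]

theorem Ga_CF (hF : Fld μ ε ψ) (hμ : 2 ≤ μ) (β : ℝ) : CF (Ga μ ε β ψ) := by
  have hμ0 : 0 < μ := by linarith
  exact ((adv_CF hF.cf hF.cf).smul _).add (((dil_CF hF.cf hμ0.ne').smul _).subf
    ((dil_CF hF.cf (inv_ne_zero hμ0.ne')).smul _))

theorem Gb_CF (hF : Fld μ ε ψ) (hμ : 2 ≤ μ) (β : ℝ) : CF (Gb μ ε β ψ) := by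
  have hμ0 : 0 < μ := by linarith
  have h1 := dil_CF hF.cf hμ0.ne'
  exact (((adv_CF hF.cf h1).add (adv_CF h1 hF.cf)).smul _).add ((h1.smul _).subf (hF.cf.smul _))

theorem Gc_CF (hF : Fld μ ε ψ) : CF (Gc ψ) := ((lap_CF hF.cf).smul _).add (hF.cf.smul _)

theorem ph_succ (μ : ℝ) (ψ : V → V) (n : ℕ) : ph μ ψ (n + 1) = dil (μ ^ n) (dil μ ψ) := by
  unfold ph
  rw [dil_dil, pow_succ]

theorem adv_ph (hF : Fld μ ε ψ) (n : ℕ) :
    adv (ph μ ψ n) (ph μ ψ n) = fun x => (μ ^ n) ^ 5 • dil (μ ^ n) (adv ψ ψ) x := by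
  funext x
  exact adv_dil hF.cf.smc _ x

theorem adv_ph1 (hF : Fld μ ε ψ) (hμ : 2 ≤ μ) (n : ℕ) :
    adv (ph μ ψ n) (ph μ ψ (n + 1)) = fun x => (μ ^ n) ^ 5 • dil (μ ^ n) (adv ψ (dil μ ψ)) x := by
  funext x
  have hμ0 : 0 < μ := by linarith
  rw [ph_succ]
  exact adv_dil (dil_CF hF.cf hμ0.ne').smc _ x

theorem adv_ph2 (hF : Fld μ ε ψ) (n : ℕ) :
    adv (ph μ ψ (n + 1)) (ph μ ψ n) = fun x => (μ ^ n) ^ 5 • dil (μ ^ n) (adv (dil μ ψ) ψ) x := by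
  funext x
  rw [ph_succ]
  exact adv_dil hF.cf.smc _ x

theorem lap_ph (hF : Fld μ ε ψ) (n : ℕ) :
    lap (ph μ ψ n) = fun x => (μ ^ n) ^ 4 • dil (μ ^ n) (lap ψ) x := by
  funext x
  exact lap_dil hF.cf.smc _ x

/-- The dilate before the `n`-th. -/
noncomputable def phm (μ : ℝ) (ψ : V → V) (n : ℕ) : V → V := dil (μ ^ n * μ⁻¹) ψ

theorem phm_succ (hμ : 2 ≤ μ) (ψ : V → V) (n : ℕ) : phm μ ψ (n + 1) = ph μ ψ n := by
  have hμ0 : 0 < μ := by linarith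
  unfold phm ph
  congr 1
  rw [pow_succ]
  field_simp

theorem phm_CF (hF : Fld μ ε ψ) (hμ : 2 ≤ μ) (n : ℕ) : CF (phm μ ψ n) := by
  have hμ0 : 0 < μ := by linarith
  exact dil_CF hF.cf (by positivity)

theorem dil_Ga (hF : Fld μ ε ψ) (hμ : 2 ≤ μ) (β : ℝ) (n : ℕ) : dil (μ ^ n) (Ga μ ε β ψ)
    = fun x => (ip ψ ψ * ((μ ^ n) ^ 5)⁻¹) • adv (ph μ ψ n) (ph μ ψ n) x
      + ((ε * β) • ph μ ψ (n + 1) x - (β * (μ ^ 5)⁻¹) • phm μ ψ n x) := by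
  funext x
  have hμ0 : 0 < μ := by linarith
  rw [adv_ph hF, ph_succ]
  have h := dil_lin (μ ^ n) (ip ψ ψ) (ε * β) (β * (μ ^ 5)⁻¹) (adv ψ ψ) (dil μ ψ) (dil μ⁻¹ ψ) x
  have e : phm μ ψ n = dil (μ ^ n) (dil μ⁻¹ ψ) := by
    unfold phm
    rw [dil_dil]
  rw [e]
  unfold Ga
  rw [h, smul_smul]
  have e2 : ip ψ ψ * ((μ ^ n) ^ 5)⁻¹ * (μ ^ n) ^ 5 = ip ψ ψ := by field_simp
  rw [e2]

theorem dil_Gb (hF : Fld μ ε ψ) (hμ : 2 ≤ μ) (β : ℝ) (n : ℕ) : dil (μ ^ n) (Gb μ ε β ψ)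
    = fun x => (ip ψ ψ * ((μ ^ n) ^ 5)⁻¹) • (adv (ph μ ψ n) (ph μ ψ (n + 1)) x
        + adv (ph μ ψ (n + 1)) (ph μ ψ n) x)
      + (β • ph μ ψ (n + 1) x - (ε * β) • ph μ ψ n x) := by
  funext x
  have hμ0 : 0 < μ := by linarith
  rw [adv_ph1 hF hμ, adv_ph2 hF, ph_succ]
  have h := dil_lin (μ ^ n) (ip ψ ψ) β (ε * β) (fun y => adv ψ (dil μ ψ) y + adv (dil μ ψ) ψ y)
    (dil μ ψ) ψ x
  unfold Gb
  rw [h, dil_add, ← smul_add, smul_smul]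
  have e2 : ip ψ ψ * ((μ ^ n) ^ 5)⁻¹ * (μ ^ n) ^ 5 = ip ψ ψ := by field_simp
  rw [e2]
  rfl

theorem dil_Gc (hF : Fld μ ε ψ) (hμ : 2 ≤ μ) (n : ℕ) : dil (μ ^ n) (Gc ψ)
    = fun x => (ip ψ ψ * ((μ ^ n) ^ 4)⁻¹) • lap (ph μ ψ n) x + Dir ψ ψ • ph μ ψ n x := by
  funext x
  have hμ0 : 0 < μ := by linarith
  rw [lap_ph hF]
  have h := dil_lin2 (μ ^ n) (ip ψ ψ) (Dir ψ ψ) (lap ψ) ψ x
  unfold Gc
  rw [h, smul_smul]
  have e2 : ip ψ ψ * ((μ ^ n) ^ 4)⁻¹ * (μ ^ n) ^ 4 = ip ψ ψ := by field_simp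
  rw [e2]
  rfl

theorem ip_dil_Ga (hF : Fld μ ε ψ) (hμ : 2 ≤ μ) (β : ℝ) (n : ℕ) {w : V → V} (hw : L2F w) :
    ip (dil (μ ^ n) (Ga μ ε β ψ)) w = ip ψ ψ * ((μ ^ n) ^ 5)⁻¹ * ip (adv (ph μ ψ n) (ph μ ψ n)) w
      + (ε * β * ip (ph μ ψ (n + 1)) w - β * (μ ^ 5)⁻¹ * ip (phm μ ψ n) w) := by
  have h0 := ph_CF hF hμ n
  have h1 := ph_CF hF hμ (n + 1)
  rw [dil_Ga hF hμ, ip_lin (adv_CF h0 h0).l2 h1.l2 (phm_CF hF hμ n).l2 hw]

theorem ip_dil_Gb (hF : Fld μ ε ψ) (hμ : 2 ≤ μ) (β : ℝ) (n : ℕ) {w : V → V} (hw : L2F w) :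
    ip (dil (μ ^ n) (Gb μ ε β ψ)) w = ip ψ ψ * ((μ ^ n) ^ 5)⁻¹
        * (ip (adv (ph μ ψ n) (ph μ ψ (n + 1))) w + ip (adv (ph μ ψ (n + 1)) (ph μ ψ n)) w)
      + (β * ip (ph μ ψ (n + 1)) w - ε * β * ip (ph μ ψ n) w) := by
  have h0 := ph_CF hF hμ n
  have h1 := ph_CF hF hμ (n + 1)
  rw [dil_Gb hF hμ, ip_lin ((adv_CF h0 h1).add (adv_CF h1 h0)).l2 h1.l2 h0.l2 hw,
    ipL_add (adv_CF h0 h1).l2 (adv_CF h1 h0).l2 hw]

theorem ip_dil_Gc (hF : Fld μ ε ψ) (hμ : 2 ≤ μ) (n : ℕ) {w : V → V} (hw : L2F w) :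
    ip (dil (μ ^ n) (Gc ψ)) w = ip ψ ψ * ((μ ^ n) ^ 4)⁻¹ * ip (lap (ph μ ψ n)) w
      + Dir ψ ψ * ip (ph μ ψ n) w := by
  have h0 := ph_CF hF hμ n
  rw [dil_Gc hF hμ, ip_lin2 (lap_CF h0).l2 h0.l2 hw]

/-- The constraints. -/
structure Con (μ ε β : ℝ) (ψ w : V → V) : Prop where
  l2 : L2F w
  c0 : ip (dil μ⁻¹ ψ) w = 0
  ca : ∀ n : ℕ, ip (dil (μ ^ n) (Ga μ ε β ψ)) w = 0
  cb : ∀ n : ℕ, ip (dil (μ ^ n) (Gb μ ε β ψ)) w = 0
  cc : ∀ n : ℕ, ip (dil (μ ^ n) (Gc ψ)) w = 0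

theorem Con.pm {w : V → V} (h : Con μ ε β ψ w) (hμ : 2 ≤ μ) (n : ℕ) :
    ip (phm μ ψ n) w = shf (fun k => ip (ph μ ψ k) w) n := by
  cases n with
  | zero =>
    show ip (phm μ ψ 0) w = 0
    unfold phm
    rw [pow_zero, one_mul]
    exact h.c0
  | succ n => rw [phm_succ hμ]; rfl

theorem Con.fa {w : V → V} (h : Con μ ε β ψ w) (hF : Fld μ ε ψ) (hμ : 2 ≤ μ) (n : ℕ) :
    ip ψ ψ * ip (adv (ph μ ψ n) (ph μ ψ n)) w
      = (μ ^ n) ^ 5 * (β * (μ ^ 5)⁻¹ * shf (fun k => ip (ph μ ψ k) w) n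
        - ε * β * ip (ph μ ψ (n + 1)) w) := by
  have hμ0 : 0 < μ := by linarith
  have h1 := h.ca n
  rw [ip_dil_Ga hF hμ β n h.l2, h.pm hμ] at h1
  have h2 : (μ ^ n) ^ 5 ≠ 0 := by positivity
  field_simp at h1 ⊢
  linear_combination h1

theorem Con.fb {w : V → V} (h : Con μ ε β ψ w) (hF : Fld μ ε ψ) (hμ : 2 ≤ μ) (n : ℕ) :
    ip ψ ψ * (ip (adv (ph μ ψ n) (ph μ ψ (n + 1))) w + ip (adv (ph μ ψ (n + 1)) (ph μ ψ n)) w)
      = (μ ^ n) ^ 5 * (ε * β * ip (ph μ ψ n) w - β * ip (ph μ ψ (n + 1)) w) := by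
  have hμ0 : 0 < μ := by linarith
  have h1 := h.cb n
  rw [ip_dil_Gb hF hμ β n h.l2] at h1
  have h2 : (μ ^ n) ^ 5 ≠ 0 := by positivity
  field_simp at h1 ⊢
  linear_combination h1

theorem Con.fc {w : V → V} (h : Con μ ε β ψ w) (hF : Fld μ ε ψ) (hμ : 2 ≤ μ) (n : ℕ) :
    ip ψ ψ * ip (lap (ph μ ψ n)) w = -((μ ^ n) ^ 4 * (Dir ψ ψ * ip (ph μ ψ n) w)) := by
  have hμ0 : 0 < μ := by linarith
  have h1 := h.cc n
  rw [ip_dil_Gc hF hμ n h.l2] at h1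
  have h2 : (μ ^ n) ^ 4 ≠ 0 := by positivity
  field_simp at h1 ⊢
  linear_combination h1

/-- The supports of distant dilates are disjoint. -/
theorem ph_disj (hF : Fld μ ε ψ) (hμ : 2 ≤ μ) {m n : ℕ} (h : m + 2 ≤ n) (x : V) :
    (∀ᶠ y in 𝓝 x, ph μ ψ m y = 0) ∨ (∀ᶠ y in 𝓝 x, ph μ ψ n y = 0) := by
  have hμ0 : 0 < μ := by linarith
  have hμ2 : (4 : ℝ) ≤ μ ^ 2 := by nlinarith
  have hm : 0 < μ ^ (2 * m) := by positivity
  obtain ⟨k, rfl⟩ : ∃ k, n = m + 2 + k := ⟨n - m - 2, by omega⟩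
  have hcont : Continuous (fun y : V => μ ^ (2 * m) * y 0) :=
    continuous_const.mul (continuous_apply 0)
  rcases lt_or_ge (μ ^ (2 * m) * x 0) (3 / 4) with h1 | h1
  · left
    filter_upwards [(hcont.tendsto x).eventually (gt_mem_nhds h1)] with y hy
    by_contra hcon
    linarith [(ph_ne hF hcon).1]
  · right
    filter_upwards [(hcont.tendsto x).eventually
      (lt_mem_nhds (show (2 : ℝ) / 3 < μ ^ (2 * m) * x 0 by linarith))] with y hy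
    by_contra hcon
    have h2 := (ph_ne hF hcon).2
    have e : μ ^ (2 * (m + 2 + k)) * y 0
        = μ ^ (2 * k) * (μ ^ 2 * (μ ^ 2 * (μ ^ (2 * m) * y 0))) := by ring
    rw [e] at h2
    have h3 : μ ^ 2 * (8 / 3) ≤ μ ^ 2 * (μ ^ 2 * (μ ^ (2 * m) * y 0)) := by
      apply mul_le_mul_of_nonneg_left _ (by positivity)
      nlinarith
    have h4 : (1 : ℝ) ≤ μ ^ (2 * k) := one_le_pow₀ (by linarith)
    have h5 : μ ^ 2 * (μ ^ 2 * (μ ^ (2 * m) * y 0))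
        ≤ μ ^ (2 * k) * (μ ^ 2 * (μ ^ 2 * (μ ^ (2 * m) * y 0))) := by
      have : 0 ≤ μ ^ 2 * (μ ^ 2 * (μ ^ (2 * m) * y 0)) := by nlinarith
      nlinarith
    nlinarith

theorem ip_zero_of {u v : V → V} (h : ∀ x, u x = 0 ∨ v x = 0) : ip u v = 0 := by
  unfold ip
  have : (fun x => ∑ i, u x i * v x i) = fun _ => 0 := by
    funext x
    rcases h x with h | h <;> rw [h] <;> simp
  rw [this]
  simp

theorem tri_far {a b k : ℕ} (hF : Fld μ ε ψ) (hμ : 2 ≤ μ)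
    (h : (a + 2 ≤ k ∨ k + 2 ≤ a) ∨ (b + 2 ≤ k ∨ k + 2 ≤ b)) :
    ip (adv (ph μ ψ a) (ph μ ψ b)) (ph μ ψ k) = 0 := by
  apply ip_zero_of
  intro x
  have key : ∀ c : ℕ, (c + 2 ≤ k ∨ k + 2 ≤ c) →
      (∀ᶠ y in 𝓝 x, ph μ ψ c y = 0) ∨ ph μ ψ k x = 0 := by
    intro c hc
    rcases hc with hc | hc
    · rcases ph_disj hF hμ hc x with h | h
      · exact Or.inl h
      · exact Or.inr h.self_of_nhds
    · rcases ph_disj hF hμ hc x with h | h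
      · exact Or.inr h.self_of_nhds
      · exact Or.inl h
  rcases h with h | h
  · rcases key a h with h | h
    · exact Or.inl (adv_zero (Or.inl h))
    · exact Or.inr h
  · rcases key b h with h | h
    · exact Or.inl (adv_zero (Or.inr h))
    · exact Or.inr h

theorem ph_dvg (hF : Fld μ ε ψ) (n : ℕ) (x : V) : dvg (ph μ ψ n) x = 0 := dvg_dil_zero hF _ x

theorem tri_up (hF : Fld μ ε ψ) (hμ : 2 ≤ μ)
    (hβ2 : tri ψ ψ (dil μ ψ) = -(ε * β)) (n : ℕ) :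
    tri (ph μ ψ n) (ph μ ψ n) (ph μ ψ (n + 1)) = -((μ ^ n) ^ 5 * (ε * β)) := by
  have hμ0 : 0 < μ := by linarith
  rw [ph_succ]
  unfold ph
  rw [tri_dil hF.cf.smc (by positivity), hβ2]
  ring

theorem tri_mix (hF : Fld μ ε ψ) (hμ : 2 ≤ μ)
    (hβ1 : tri (dil μ ψ) ψ (dil μ ψ) = -β) (n : ℕ) :
    tri (ph μ ψ (n + 1)) (ph μ ψ n) (ph μ ψ (n + 1)) = -((μ ^ n) ^ 5 * β) := by
  have hμ0 : 0 < μ := by linarith
  rw [ph_succ]
  unfold ph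
  rw [tri_dil hF.cf.smc (by positivity), hβ1]
  ring

theorem ip_ph_self (hμ : 2 ≤ μ) (ψ : V → V) (n : ℕ) : ip (ph μ ψ n) (ph μ ψ n) = ip ψ ψ := by
  have hμ0 : 0 < μ := by linarith
  exact ip_dil ψ ψ (by positivity)

theorem phm_zero_ip (hF : Fld μ ε ψ) (hμ : 2 ≤ μ) (k : ℕ) :
    ip (phm μ ψ 0) (ph μ ψ k) = 0 := by
  have hμ0 : 0 < μ := by linarith
  have h1 := ip_dil (phm μ ψ 0) (ph μ ψ k) hμ0
  rw [← h1]
  have e1 : dil μ (phm μ ψ 0) = ph μ ψ 0 := by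
    unfold phm ph
    rw [dil_dil]
    congr 1
    field_simp
  have e2 : dil μ (ph μ ψ k) = ph μ ψ (k + 1) := by
    unfold ph
    rw [dil_dil]
    congr 1
    ring
  rw [e1, e2]
  exact (orth hF hμ (by omega)).1

theorem phm_ip (hF : Fld μ ε ψ) (hμ : 2 ≤ μ) (n k : ℕ) :
    ip (phm μ ψ n) (ph μ ψ k) = if k + 1 = n then ip ψ ψ else 0 := by
  cases n with
  | zero =>
    rw [phm_zero_ip hF hμ]
    simp
  | succ n =>
    rw [phm_succ hμ]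
    by_cases h : k = n
    · rw [h, ip_ph_self hμ]
      simp
    · rw [(orth hF hμ (Ne.symm h)).1, if_neg (by omega)]

theorem ph_ip (hF : Fld μ ε ψ) (hμ : 2 ≤ μ) (n k : ℕ) :
    ip (ph μ ψ n) (ph μ ψ k) = if k = n then ip ψ ψ else 0 := by
  by_cases h : k = n
  · rw [h, ip_ph_self hμ]
    simp
  · rw [(orth hF hμ (Ne.symm h)).1, if_neg h]

/-- The dilates themselves satisfy the constraints. -/
theorem ph_Con (hF : Fld μ ε ψ) (hμ : 2 ≤ μ) (hβ1 : tri (dil μ ψ) ψ (dil μ ψ) = -β)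
    (hβ2 : tri ψ ψ (dil μ ψ) = -(ε * β)) (k : ℕ) : Con μ ε β ψ (ph μ ψ k) := by
  have hμ0 : 0 < μ := by linarith
  have hk := ph_CF hF hμ k
  refine ⟨hk.l2, ?_, ?_, ?_, ?_⟩
  · have h := phm_zero_ip hF hμ k
    unfold phm at h
    rw [pow_zero, one_mul] at h
    exact h
  · intro n
    rw [ip_dil_Ga hF hμ β n hk.l2, ph_ip hF hμ, phm_ip hF hμ]
    have hn := ph_CF hF hμ n
    by_cases h1 : k = n + 1
    · subst h1
      rw [ip_adv, tri_up hF hμ hβ2, if_pos rfl, if_neg (by omega)]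
      field_simp
      ring
    · by_cases h2 : k + 1 = n
      · subst h2
        rw [ip_adv, tri_anti hn (ph_dvg hF _) hn hk, tri_mix hF hμ hβ1, if_neg h1, if_pos rfl]
        field_simp
        ring
      · rw [if_neg h1, if_neg h2]
        have h3 : ip (adv (ph μ ψ n) (ph μ ψ n)) (ph μ ψ k) = 0 := by
          by_cases h4 : k = n
          · subst h4
            rw [ip_adv]
            exact tri_self hk (ph_dvg hF _) hk
          · exact tri_far hF hμ (Or.inl (by omega))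
        rw [h3]
        ring
  · intro n
    rw [ip_dil_Gb hF hμ β n hk.l2, ph_ip hF hμ, ph_ip hF hμ]
    have hn := ph_CF hF hμ n
    have hn1 := ph_CF hF hμ (n + 1)
    by_cases h1 : k = n + 1
    · subst h1
      rw [ip_adv, ip_adv, tri_self hn (ph_dvg hF _) hn1, tri_mix hF hμ hβ1, if_pos rfl,
        if_neg (by omega)]
      field_simp
      ring
    · by_cases h2 : k = n
      · subst h2
        rw [ip_adv, ip_adv, tri_anti hn (ph_dvg hF _) hn1 hn, tri_up hF hμ hβ2,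
          tri_self hn1 (ph_dvg hF _) hn, if_neg h1, if_pos rfl]
        field_simp
        ring
      · rw [if_neg h1, if_neg h2, tri_far hF hμ (by omega), tri_far hF hμ (by omega)]
        ring
  · intro n
    have hn := ph_CF hF hμ n
    rw [ip_dil_Gc hF hμ n hk.l2, ph_ip hF hμ, ip_lap hn hk]
    by_cases h2 : k = n
    · subst h2
      have e : Dir (ph μ ψ k) (ph μ ψ k) = (μ ^ k) ^ 4 * Dir ψ ψ :=
        Dir_dil hF.cf.smc hF.cf.smc (by positivity)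
      rw [e, if_pos rfl]
      field_simp
      ring
    · rw [if_neg h2, (orth hF hμ (Ne.symm h2)).2]
      ring

end

end Pool.Agent.Run7.h407
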