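import Mathlib
import Pool.Agent.Run7.h407.W.Cns

/-!
The expansion of the residual.
-/

namespace Pool.Agent.Run7.h407

open Set Filter Topology MeasureTheory
open scoped ContDiff

theorem dbl_sum (A : ℕ → ℕ → ℝ) (h : ∀ a b, a + 2 ≤ b ∨ b + 2 ≤ a → A a b = 0) (K : ℕ) :
    ∑ a ∈ Finset.range (K + 1), ∑ b ∈ Finset.range (K + 1), A a b
      = ∑ n ∈ Finset.range (K + 1), A n n
        + ∑ n ∈ Finset.range K, (A n (n + 1) + A (n + 1) n) := by
  induction K with
  | zero => simp
  | succ K ih =>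
    have h1 : ∀ a, ∑ b ∈ Finset.range (K + 1 + 1), A a b
        = ∑ b ∈ Finset.range (K + 1), A a b + A a (K + 1) := fun a => Finset.sum_range_succ _ _
    have h2 : ∑ a ∈ Finset.range (K + 1), A a (K + 1) = A K (K + 1) := by
      rw [Finset.sum_range_succ, Finset.sum_eq_zero, zero_add]
      intro a ha
      rw [Finset.mem_range] at ha
      exact h a (K + 1) (Or.inl (by omega))
    have h3 : ∑ b ∈ Finset.range (K + 1), A (K + 1) b = A (K + 1) K := by
      rw [Finset.sum_range_succ, Finset.sum_eq_zero, zero_add]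
      intro a ha
      rw [Finset.mem_range] at ha
      exact h (K + 1) a (Or.inr (by omega))
    rw [Finset.sum_range_succ]
    simp_rw [h1]
    rw [Finset.sum_add_distrib, h2, h3, ih, Finset.sum_range_succ (fun n => A n n) (K + 1),
      Finset.sum_range_succ (fun n => A n (n + 1) + A (n + 1) n) K]
    ring

theorem dbl_sum' (A : ℕ → ℕ → ℝ) (h : ∀ a b, a + 2 ≤ b ∨ b + 2 ≤ a → A a b = 0) (K : ℕ)
    (hK : ∀ a b, K ≤ a ∨ K ≤ b → A a b = 0) :
    ∑ a ∈ Finset.range K, ∑ b ∈ Finset.range K, A a b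
      = ∑ n ∈ Finset.range K, (A n n + (A n (n + 1) + A (n + 1) n)) := by
  have h1 := dbl_sum A h K
  have h2 : ∀ a, ∑ b ∈ Finset.range (K + 1), A a b = ∑ b ∈ Finset.range K, A a b := by
    intro a
    rw [Finset.sum_range_succ, hK a K (Or.inr le_rfl), add_zero]
  have h3 : ∑ b ∈ Finset.range K, A K b = 0 :=
    Finset.sum_eq_zero fun b _ => hK K b (Or.inl le_rfl)
  rw [Finset.sum_range_succ] at h1
  simp_rw [h2] at h1
  rw [h3, add_zero, Finset.sum_range_succ (fun n => A n n), hK K K (Or.inl le_rfl), add_zero] at h1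
  rw [h1, ← Finset.sum_add_distrib]

section

variable {μ ε β : ℝ} {ψ : V → V}

/-- Near a point off the plane `x 0 = 0` only finitely many dilates do not vanish. -/
theorem fin_near (hF : Fld μ ε ψ) (hμ : 2 ≤ μ) {x : V} (hx : x 0 ≠ 0) :
    ∃ K : ℕ, ∀ᶠ y in 𝓝 x, ∀ n ≥ K, ph μ ψ n y = 0 := by
  have hμ0 : 0 < μ := by linarith
  rcases lt_or_gt_of_ne hx with hneg | hpos
  · refine ⟨0, ?_⟩
    filter_upwards [nhds_lt hneg] with y hy n _
    by_contra hcon
    have h1 := (ph_ne hF hcon).1
    have h2 : 0 < μ ^ (2 * n) := by positivity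
    nlinarith
  · have h1 : Tendsto (fun m : ℕ => (μ ^ 2) ^ m * (x 0 / 2)) atTop atTop :=
      (tendsto_pow_atTop_atTop_of_one_lt (by nlinarith)).atTop_mul_const (by linarith)
    obtain ⟨K, hK⟩ := (h1.eventually_gt_atTop (μ ^ 2 + 1 / 4)).exists_forall_of_atTop
    refine ⟨K, ?_⟩
    filter_upwards [nhds_gt (show x 0 / 2 < x 0 by linarith)] with y hy n hn
    by_contra hcon
    have h2 := (ph_ne hF hcon).2
    have h3 := hK n hn
    have e : μ ^ (2 * n) = (μ ^ 2) ^ n := by ring
    rw [e] at h2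
    have h4 : (μ ^ 2) ^ n * (x 0 / 2) ≤ (μ ^ 2) ^ n * y 0 :=
      mul_le_mul_of_nonneg_left hy.le (by positivity)
    linarith

/-- The `n`-th part of the residual. -/
noncomputable def Qf (μ ν : ℝ) (ψ : V → V) (a a' : ℕ → ℝ) (n : ℕ) (x : V) : V :=
  a' n • ph μ ψ n x + (a n ^ 2) • adv (ph μ ψ n) (ph μ ψ n) x
    + (a n * a (n + 1)) • (adv (ph μ ψ n) (ph μ ψ (n + 1)) x + adv (ph μ ψ (n + 1)) (ph μ ψ n) x)
    - (ν * a n) • lap (ph μ ψ n) x

theorem Qf_apply (ν : ℝ) (a a' : ℕ → ℝ) (n : ℕ) (x : V) (i : Fin 3) :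
    Qf μ ν ψ a a' n x i = a' n * ph μ ψ n x i + a n ^ 2 * adv (ph μ ψ n) (ph μ ψ n) x i
    + a n * a (n + 1) * (adv (ph μ ψ n) (ph μ ψ (n + 1)) x i
      + adv (ph μ ψ (n + 1)) (ph μ ψ n) x i)
    - ν * a n * lap (ph μ ψ n) x i := rfl

theorem res_fin (hF : Fld μ ε ψ) (hμ : 2 ≤ μ) {w : ℝ → V → V} {T' : ℝ} {c : ℕ → ℝ → ℝ}
    (hm : ∀ s ∈ Ico 0 T', Mem μ ψ (fun n => c n s) (w s)) {t : ℝ} (ht : t ∈ Ioo 0 T')
    {c' : ℕ → ℝ} (hc : ∀ n, HasDerivAt (c n) (c' n) t) (ν : ℝ) {x : V} (hx : x 0 ≠ 0)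
    (i : Fin 3) :
    HasSum (fun n => Qf μ ν ψ (fun k => c k t) c' n x i) (residual ν w t x i) := by
  obtain ⟨K, hK⟩ := fin_near hF hμ hx
  have hph : ∀ n, CF (ph μ ψ n) := ph_CF hF hμ
  have hKx : ∀ n ≥ K, ∀ᶠ y in 𝓝 x, ph μ ψ n y = 0 := by
    intro n hn
    filter_upwards [hK] with y hy
    exact hy n hn
  have hQ : ∀ n, n ∉ Finset.range K → Qf μ ν ψ (fun k => c k t) c' n x i = 0 := by
    intro n hn
    rw [Finset.mem_range, not_lt] at hn
    have h1 := hKx n hn
    rw [Qf_apply, adv_zero (Or.inl h1), adv_zero (Or.inl h1), adv_zero (Or.inr h1), lap_zero h1,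
      h1.self_of_nhds]
    simp
  have key : residual ν w t x i = ∑ n ∈ Finset.range K, Qf μ ν ψ (fun k => c k t) c' n x i := by
    -- representation near `x`
    have hrep : ∀ s ∈ Ico 0 T', ∀ y : V, (∀ n ≥ K, ph μ ψ n y = 0) → ∀ j,
        w s y j = ∑ n ∈ Finset.range K, c n s * ph μ ψ n y j := by
      intro s hs y hy j
      have h1 : HasSum (fun n => c n s • ph μ ψ n y)
          (∑ n ∈ Finset.range K, c n s • ph μ ψ n y) := by
        apply hasSum_sum_of_ne_finset_zero
        intro n hn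
        rw [Finset.mem_range, not_lt] at hn
        rw [hy n hn, smul_zero]
      have h2 := (hm s hs y).unique h1
      rw [h2, Finset.sum_apply]
      rfl
    have htm : t ∈ Ico 0 T' := ⟨ht.1.le, ht.2⟩
    have e1 : ∀ j k, ∀ᶠ y in 𝓝 x, pd j (fun z => w t z k) y
        = ∑ n ∈ Finset.range K, c n t * pd j (fun z => ph μ ψ n z k) y := by
      intro j k
      filter_upwards [hK.eventually_nhds] with y hy
      have h1 : (fun z => w t z k) =ᶠ[𝓝 y] fun z => ∑ n ∈ Finset.range K, c n t * ph μ ψ n z k := by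
        filter_upwards [hy] with z hz
        exact hrep t htm z hz k
      rw [pd_congr h1, pd_sum (fun n _ => ((contDiff_const.mul ((hph n).smc k)).differentiable
        (by simp) y : DifferentiableAt ℝ (fun z => c n t * ph μ ψ n z k) y))]
      apply Finset.sum_congr rfl
      intro n _
      exact pd_const_mul _ (((hph n).smc k).diff y) j
    have e2 : ∀ j, pd j (pd j (fun z => w t z i)) x
        = ∑ n ∈ Finset.range K, c n t * pd j (pd j (fun z => ph μ ψ n z i)) x := by
      intro j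
      rw [pd_congr (e1 j i), pd_sum (fun n _ => ((contDiff_const.mul
        (((hph n).smc i).pd j)).differentiable (by simp) x :
        DifferentiableAt ℝ (fun z => c n t * pd j (fun z => ph μ ψ n z i) z) x))]
      apply Finset.sum_congr rfl
      intro n _
      exact pd_const_mul _ ((((hph n).smc i).pd j).diff x) j
    have e3 : deriv (fun s => w s x i) t = ∑ n ∈ Finset.range K, c' n * ph μ ψ n x i := by
      have h1 : (fun s => w s x i) =ᶠ[𝓝 t] fun s => ∑ n ∈ Finset.range K, c n s * ph μ ψ n x i := by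
        filter_upwards [Ioo_mem_nhds ht.1 ht.2] with s hs
        exact hrep s ⟨hs.1.le, hs.2⟩ x hK.self_of_nhds i
      rw [h1.deriv_eq]
      exact (HasDerivAt.fun_sum fun n _ => (hc n).mul_const _).deriv
    have e4 : ∑ j, w t x j * pd j (fun y => w t y i) x
        = ∑ a ∈ Finset.range K, ∑ b ∈ Finset.range K,
          c a t * c b t * adv (ph μ ψ a) (ph μ ψ b) x i := by
      have h1 : ∀ j, w t x j * pd j (fun y => w t y i) x
          = ∑ a ∈ Finset.range K, ∑ b ∈ Finset.range K,
            c a t * c b t * (ph μ ψ a x j * pd j (fun z => ph μ ψ b z i) x) := by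
        intro j
        rw [hrep t htm x hK.self_of_nhds j, (e1 j i).self_of_nhds, Finset.sum_mul_sum]
        apply Finset.sum_congr rfl
        intro a _
        apply Finset.sum_congr rfl
        intro b _
        ring
      simp_rw [h1]
      rw [Finset.sum_comm]
      apply Finset.sum_congr rfl
      intro a _
      rw [Finset.sum_comm]
      apply Finset.sum_congr rfl
      intro b _
      unfold adv
      rw [Finset.mul_sum]
    have e5 := dbl_sum' (fun a b => c a t * c b t * adv (ph μ ψ a) (ph μ ψ b) x i)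
      (by
        intro a b hab
        have h1 : adv (ph μ ψ a) (ph μ ψ b) x = 0 := by
          apply adv_zero
          rcases hab with hab | hab
          · exact ph_disj hF hμ hab x
          · exact (ph_disj hF hμ hab x).symm
        simp only [h1]
        simp) K
      (by
        intro a b hab
        have h1 : adv (ph μ ψ a) (ph μ ψ b) x = 0 := by
          apply adv_zero
          rcases hab with hab | hab
          · exact Or.inl (hKx a hab)
          · exact Or.inr (hKx b hab)
        simp only [h1]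
        simp)
    unfold residual
    rw [e3, e4, e5]
    simp_rw [e2, Qf_apply]
    rw [Finset.sum_comm, Finset.mul_sum, ← Finset.sum_add_distrib, ← Finset.sum_sub_distrib]
    apply Finset.sum_congr rfl
    intro n _
    have e6 : lap (ph μ ψ n) x i = ∑ j, pd j (pd j (fun z => ph μ ψ n z i)) x := rfl
    rw [e6, ← Finset.mul_sum]
    ring
  rw [key]
  exact hasSum_sum_of_ne_finset_zero hQ

end

end Pool.Agent.Run7.h407
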