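import Mathlib
import Pool.Agent.Run7.h407.W.Res

/-!
The residual is orthogonal to every square integrable field which satisfies the constraints.
-/

namespace Pool.Agent.Run7.h407

open Set Filter Topology MeasureTheory
open scoped ContDiff

/-- Rapidly decaying sequences. -/
def Rap (a : ℕ → ℝ) : Prop := RD 1 (fun j _ => a j)

theorem Rap.intro {a : ℕ → ℝ} (h : ∀ c > 0, ∃ C, ∀ j, |a j| * c ^ j ≤ C) : Rap a := by
  intro c hc
  obtain ⟨C, hC⟩ := h c hc
  exact ⟨C, fun j _ _ => hC j⟩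

theorem Rap.summ {a : ℕ → ℝ} (h : Rap a) {r : ℝ} (hr : 0 < r) :
    Summable (fun j => |a j| * r ^ j) := by
  obtain ⟨u, hu, hu2⟩ := RD.summable_bound h hr
  refine Summable.of_nonneg_of_le (fun j => ?_) (fun j => hu2 j 0 (by norm_num)) hu
  positivity

theorem Rap.add {a b : ℕ → ℝ} (ha : Rap a) (hb : Rap b) : Rap (fun n => a n + b n) := RD.add ha hb

theorem Rap.mul {a b : ℕ → ℝ} (ha : Rap a) (hb : Rap b) : Rap (fun n => a n * b n) := RD.mul ha hb

theorem Rap.geom {a : ℕ → ℝ} (ha : Rap a) (k : ℝ) {r : ℝ} (hr : 0 < r) :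
    Rap (fun n => k * r ^ n * a n) := RD.geom ha k hr

theorem Rap.shift {a : ℕ → ℝ} (ha : Rap a) : Rap (fun n => a (n + 1)) := RD.shift ha 1

theorem Rap.shf {a : ℕ → ℝ} (ha : Rap a) : Rap (shf a) := by
  have h := RD.unsh ha
  intro c hc
  obtain ⟨C, hC⟩ := h c hc
  refine ⟨C, fun j t ht => ?_⟩
  have h1 := hC j t ht
  cases j with
  | zero => exact h1
  | succ j => exact h1

section

variable {μ ε β : ℝ} {ψ : V → V}

theorem cf_radius {u : V → V} (hu : CF u) : ∃ R, 0 < R ∧ ∀ x, u x ≠ 0 → ‖x‖ ≤ R := by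
  obtain ⟨R, hR⟩ := hu.cs.isCompact.isBounded.subset_closedBall 0
  refine ⟨max R 1, lt_max_of_lt_right one_pos, fun x hx => ?_⟩
  have := hR (subset_tsupport u hx)
  rw [mem_closedBall_zero_iff] at this
  exact this.trans (le_max_left _ _)

/-- The integral of a square integrable field against a dilate. -/
theorem dil_test (hμ : 2 ≤ μ) {G : V → V} (hG : CF G) {v : V → V} (hv : L2F v) :
    ∃ C, 0 ≤ C ∧ ∀ (b : ℝ) (n : ℕ),
      ∫ x, ‖∑ i, (b • dil (μ ^ n) G x) i * v x i‖ ≤ |b| * (μ ^ 3) ^ n * C := by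
  have hμ0 : 0 < μ := by linarith
  obtain ⟨R, hR0, hR⟩ := cf_radius hG
  obtain ⟨M, hM⟩ := hG.cs.exists_bound_of_continuous hG.sm.continuous
  have hM0 : 0 ≤ M := (norm_nonneg _).trans (hM 0)
  have hvi : ∀ i, IntegrableOn (fun x => |v x i|) (Metric.closedBall (0 : V) R) := by
    intro i
    have h1 : MemLp (fun x => v x i) 2 (volume.restrict (Metric.closedBall (0 : V) R)) :=
      (hv i).restrict _
    have : IsFiniteMeasure (volume.restrict (Metric.closedBall (0 : V) R)) :=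
      ⟨by
        rw [Measure.restrict_apply_univ]
        exact (isCompact_closedBall (0 : V) R).measure_lt_top⟩
    exact (h1.integrable (by norm_num)).abs
  have hs : Integrable (fun x => (Metric.closedBall (0 : V) R).indicator
      (fun y => ∑ i, |v y i|) x) volume := by
    rw [integrable_indicator_iff measurableSet_closedBall]
    exact integrable_finsetSum _ fun i _ => hvi i
  refine ⟨M * ∫ x, (Metric.closedBall (0 : V) R).indicator (fun y => ∑ i, |v y i|) x,
    mul_nonneg hM0 (integral_nonneg fun x => indicator_nonneg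
      (fun y _ => Finset.sum_nonneg fun i _ => abs_nonneg _) x), fun b n => ?_⟩
  have hpt : ∀ x, ‖∑ i, (b • dil (μ ^ n) G x) i * v x i‖ ≤ |b| * (μ ^ 3) ^ n * M
      * (Metric.closedBall (0 : V) R).indicator (fun y => ∑ i, |v y i|) x := by
    intro x
    by_cases hx : x ∈ Metric.closedBall (0 : V) R
    · rw [indicator_of_mem hx]
      calc ‖∑ i, (b • dil (μ ^ n) G x) i * v x i‖
          ≤ ∑ i, ‖(b • dil (μ ^ n) G x) i * v x i‖ := norm_sum_le _ _
        _ ≤ ∑ i, (|b| * (μ ^ 3) ^ n * M) * |v x i| := by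
            apply Finset.sum_le_sum
            intro i _
            rw [norm_mul, Real.norm_eq_abs, Real.norm_eq_abs]
            apply mul_le_mul_of_nonneg_right _ (abs_nonneg _)
            show |b * ((μ ^ n) ^ 3 * G ((μ ^ n) ^ 2 • x) i)| ≤ _
            rw [abs_mul, abs_mul, abs_of_pos (by positivity : 0 < (μ ^ n) ^ 3)]
            have h1 : |G ((μ ^ n) ^ 2 • x) i| ≤ M := by
              rw [← Real.norm_eq_abs]
              exact (norm_le_pi_norm _ i).trans (hM _)
            have e : (μ ^ n) ^ 3 = (μ ^ 3) ^ n := by ring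
            rw [e, ← mul_assoc]
            exact mul_le_mul_of_nonneg_left h1 (by positivity)
        _ = _ := by rw [← Finset.mul_sum]
    · have h1 : dil (μ ^ n) G x = 0 := by
        by_contra hcon
        apply hx
        rw [mem_closedBall_zero_iff]
        have h2 : G ((μ ^ n) ^ 2 • x) ≠ 0 := by
          intro h0
          apply hcon
          unfold dil
          rw [h0, smul_zero]
        have h3 := hR _ h2
        rw [norm_smul, Real.norm_eq_abs, abs_of_nonneg (by positivity)] at h3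
        have h4 : 1 ≤ (μ ^ n) ^ 2 := one_le_pow₀ (one_le_pow₀ (by linarith))
        have h5 := norm_nonneg x
        nlinarith
      rw [h1, indicator_of_notMem hx]
      simp
  have hint : Integrable (fun x => |b| * (μ ^ 3) ^ n * M
      * (Metric.closedBall (0 : V) R).indicator (fun y => ∑ i, |v y i|) x) volume :=
    hs.const_mul _
  calc ∫ x, ‖∑ i, (b • dil (μ ^ n) G x) i * v x i‖
      ≤ ∫ x, |b| * (μ ^ 3) ^ n * M
        * (Metric.closedBall (0 : V) R).indicator (fun y => ∑ i, |v y i|) x :=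
        integral_mono_of_nonneg (Eventually.of_forall fun x => norm_nonneg _) hint
          (Eventually.of_forall hpt)
    _ = _ := by
        rw [integral_const_mul]
        ring

theorem dil_test_int (hμ : 2 ≤ μ) {G : V → V} (hG : CF G) {v : V → V} (hv : L2F v) (b : ℝ)
    (n : ℕ) : Integrable (fun x => ∑ i, (b • dil (μ ^ n) G x) i * v x i) volume := by
  have hμ0 : 0 < μ := by linarith
  exact ipL_int (((dil_CF hG (by positivity)).smul b).l2) hv

/-- The four kinds of terms of the residual. -/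
theorem Qf_split (hF : Fld μ ε ψ) (hμ : 2 ≤ μ) (ν : ℝ) (a a' : ℕ → ℝ) (n : ℕ) (x : V) :
    Qf μ ν ψ a a' n x = a' n • dil (μ ^ n) ψ x
      + ((μ ^ 5) ^ n * a n ^ 2) • dil (μ ^ n) (adv ψ ψ) x
      + ((μ ^ 5) ^ n * (a n * a (n + 1))) • dil (μ ^ n)
        (fun y => adv ψ (dil μ ψ) y + adv (dil μ ψ) ψ y) x
      + (-(ν * ((μ ^ 4) ^ n * a n))) • dil (μ ^ n) (lap ψ) x := by
  unfold Qf
  have hμ0 : μ ≠ 0 := by linarith
  rw [adv_ph hF]
  have e1 : adv (ph μ ψ n) (ph μ ψ (n + 1)) x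
      = (μ ^ n) ^ 5 • dil (μ ^ n) (adv ψ (dil μ ψ)) x := by
    rw [ph_succ]
    exact adv_dil (dil_CF hF.cf hμ0).smc _ x
  rw [e1, adv_ph2 hF, lap_ph hF, dil_add]
  funext i
  simp only [Pi.add_apply, Pi.sub_apply, Pi.smul_apply, smul_eq_mul, ph]
  ring

theorem sum_four {f0 f1 f2 f3 g : ℕ → V → ℝ} (h0 : ∀ n, Integrable (f0 n) volume)
    (h1 : ∀ n, Integrable (f1 n) volume) (h2 : ∀ n, Integrable (f2 n) volume)
    (h3 : ∀ n, Integrable (f3 n) volume) (hg : ∀ n x, g n x = ((f0 n x + f1 n x) + f2 n x) + f3 n x)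
    (s0 : Summable fun n => ∫ x, ‖f0 n x‖) (s1 : Summable fun n => ∫ x, ‖f1 n x‖)
    (s2 : Summable fun n => ∫ x, ‖f2 n x‖) (s3 : Summable fun n => ∫ x, ‖f3 n x‖) :
    (∀ n, Integrable (g n) volume) ∧ Summable (fun n => ∫ x, ‖g n x‖) := by
  have hi : ∀ n, Integrable (g n) volume := by
    intro n
    have e : g n = fun x => ((f0 n x + f1 n x) + f2 n x) + f3 n x := funext (hg n)
    rw [e]
    exact (((h0 n).add (h1 n)).add (h2 n)).add (h3 n)
  refine ⟨hi, ?_⟩
  apply Summable.of_nonneg_of_le (fun n => integral_nonneg fun x => norm_nonneg _) _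
    (((s0.add s1).add s2).add s3)
  intro n
  have i01 : Integrable (fun x => ‖f0 n x‖ + ‖f1 n x‖) volume := (h0 n).norm.add (h1 n).norm
  have i012 : Integrable (fun x => ‖f0 n x‖ + ‖f1 n x‖ + ‖f2 n x‖) volume := i01.add (h2 n).norm
  have i0123 : Integrable (fun x => ‖f0 n x‖ + ‖f1 n x‖ + ‖f2 n x‖ + ‖f3 n x‖) volume :=
    i012.add (h3 n).norm
  rw [← integral_add (h0 n).norm (h1 n).norm, ← integral_add i01 (h2 n).norm,
    ← integral_add i012 (h3 n).norm]
  apply integral_mono (hi n).norm i0123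
  intro x
  simp only
  rw [hg]
  refine (norm_add_le _ _).trans (add_le_add ?_ le_rfl)
  refine (norm_add_le _ _).trans (add_le_add ?_ le_rfl)
  exact norm_add_le _ _

theorem Qf_summ (hF : Fld μ ε ψ) (hμ : 2 ≤ μ) (ν : ℝ) {a a' : ℕ → ℝ} (ha : Rap a)
    (ha' : Rap a') {v : V → V} (hv : L2F v) :
    (∀ n, Integrable (fun x => ∑ i, Qf μ ν ψ a a' n x i * v x i) volume) ∧
    Summable (fun n => ∫ x, ‖∑ i, Qf μ ν ψ a a' n x i * v x i‖) := by
  have hμ0 : 0 < μ := by linarith
  have h1 := adv_CF hF.cf hF.cf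
  have hd := dil_CF hF.cf hμ0.ne'
  have h2 := (adv_CF hF.cf hd).add (adv_CF hd hF.cf)
  have h3 := lap_CF hF.cf
  obtain ⟨C0, hC00, hC0⟩ := dil_test hμ hF.cf hv
  obtain ⟨C1, hC10, hC1⟩ := dil_test hμ h1 hv
  obtain ⟨C2, hC20, hC2⟩ := dil_test hμ h2 hv
  obtain ⟨C3, hC30, hC3⟩ := dil_test hμ h3 hv
  have r1 : Rap (fun n => (μ ^ 5) ^ n * a n ^ 2) := by
    have := (ha.mul ha).geom 1 (r := μ ^ 5) (by positivity)
    refine (congrArg Rap (funext fun n => ?_)).mp this
    ring
  have r2 : Rap (fun n => (μ ^ 5) ^ n * (a n * a (n + 1))) := by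
    have := (ha.mul ha.shift).geom 1 (r := μ ^ 5) (by positivity)
    refine (congrArg Rap (funext fun n => ?_)).mp this
    ring
  have r3 : Rap (fun n => -(ν * ((μ ^ 4) ^ n * a n))) := by
    have := ha.geom (-ν) (r := μ ^ 4) (by positivity)
    refine (congrArg Rap (funext fun n => ?_)).mp this
    ring
  have hμ3 : 0 < μ ^ 3 := by positivity
  have hnn : ∀ f : V → ℝ, 0 ≤ ∫ x, ‖f x‖ := fun f => integral_nonneg fun x => norm_nonneg _
  refine sum_four (fun n => dil_test_int hμ hF.cf hv (a' n) n)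
    (fun n => dil_test_int hμ h1 hv ((μ ^ 5) ^ n * a n ^ 2) n)
    (fun n => dil_test_int hμ h2 hv ((μ ^ 5) ^ n * (a n * a (n + 1))) n)
    (fun n => dil_test_int hμ h3 hv (-(ν * ((μ ^ 4) ^ n * a n))) n) ?_
    (Summable.of_nonneg_of_le (fun n => hnn _) (fun n => hC0 _ n) ((ha'.summ hμ3).mul_right C0))
    (Summable.of_nonneg_of_le (fun n => hnn _) (fun n => hC1 _ n) ((r1.summ hμ3).mul_right C1))
    (Summable.of_nonneg_of_le (fun n => hnn _) (fun n => hC2 _ n) ((r2.summ hμ3).mul_right C2))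
    (Summable.of_nonneg_of_le (fun n => hnn _) (fun n => hC3 _ n) ((r3.summ hμ3).mul_right C3))
  intro n x
  rw [Qf_split hF hμ, ← Finset.sum_add_distrib, ← Finset.sum_add_distrib, ← Finset.sum_add_distrib]
  congr 1
  funext i
  simp only [Pi.add_apply]
  ring

theorem ae_ne_zero : ∀ᵐ x : V, x 0 ≠ 0 := by
  have h : (volume : Measure V) {x : V | x 0 = 0} = 0 :=
    Measure.pi_hyperplane (fun _ : Fin 3 => (volume : Measure ℝ)) 0 0
  rw [ae_iff]
  simpa using h

end

end Pool.Agent.Run7.h407
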