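import Mathlib
import Pool.Agent.Run7.h407.W.Test

/-!
The residual of a Galerkin solution is orthogonal to every field satisfying the constraints.
-/

namespace Pool.Agent.Run7.h407

open Set Filter Topology MeasureTheory
open scoped ContDiff

section

variable {μ ε β : ℝ} {ψ : V → V}

theorem dot_eq_ip (u v : V → V) : (∫ x, ∑ i, u x i * v x i) = ip u v := rfl

theorem ip_Qf (hF : Fld μ ε ψ) (hμ : 2 ≤ μ) (ν : ℝ) (a a' : ℕ → ℝ) (n : ℕ) {v : V → V}
    (hv : L2F v) : ∫ x, ∑ i, Qf μ ν ψ a a' n x i * v x i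
      = a' n * ip (ph μ ψ n) v + a n ^ 2 * ip (adv (ph μ ψ n) (ph μ ψ n)) v
        + a n * a (n + 1) * (ip (adv (ph μ ψ n) (ph μ ψ (n + 1))) v
          + ip (adv (ph μ ψ (n + 1)) (ph μ ψ n)) v)
        - ν * a n * ip (lap (ph μ ψ n)) v := by
  have h0 := ph_CF hF hμ n
  have h1 := ph_CF hF hμ (n + 1)
  have c1 := adv_CF h0 h0
  have c2 := (adv_CF h0 h1).add (adv_CF h1 h0)
  have c3 := lap_CF h0
  have e : ∫ x, ∑ i, Qf μ ν ψ a a' n x i * v x i = ip (fun x => (fun x => (fun x => a' n • ph μ ψ n x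
      + (a n ^ 2) • adv (ph μ ψ n) (ph μ ψ n) x) x
      + (a n * a (n + 1)) • (fun x => adv (ph μ ψ n) (ph μ ψ (n + 1)) x
        + adv (ph μ ψ (n + 1)) (ph μ ψ n) x) x) x
      - (ν * a n) • lap (ph μ ψ n) x) v := rfl
  rw [e, ipL_sub (((h0.smul _).add (c1.smul _)).add (c2.smul _)).l2 (c3.smul _).l2 hv,
    ipL_add ((h0.smul _).add (c1.smul _)).l2 (c2.smul _).l2 hv,
    ipL_add (h0.smul _).l2 (c1.smul _).l2 hv, ip_smul_left, ip_smul_left, ip_smul_left,
    ip_smul_left, ipL_add (adv_CF h0 h1).l2 (adv_CF h1 h0).l2 hv]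

theorem ip_growth (hF : Fld μ ε ψ) (hμ : 2 ≤ μ) {v : V → V} (hv : L2F v) :
    ∃ C, 0 ≤ C ∧ ∀ n, |ip (ph μ ψ n) v| ≤ (μ ^ 3) ^ n * C := by
  obtain ⟨C, hC0, hC⟩ := dil_test hμ hF.cf hv
  refine ⟨C, hC0, fun n => ?_⟩
  have h1 := hC 1 n
  rw [abs_one, one_mul] at h1
  refine le_trans ?_ h1
  have e : ip (ph μ ψ n) v = ∫ x, ∑ i, ((1 : ℝ) • dil (μ ^ n) ψ x) i * v x i := by
    unfold ip
    congr 1
    funext x
    rw [one_smul]
    rfl
  rw [e, ← Real.norm_eq_abs]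
  exact norm_integral_le_integral_norm _

theorem rap_prime (hμ : 2 ≤ μ) {N D : ℝ} (hN : 0 < N) (ν : ℝ) {a a' : ℕ → ℝ} (ha : Rap a)
    (hode : ∀ m, a' m * N + ν * (a m * μ ^ (4 * m) * D)
        + μ ^ (5 * m) * β * (ε * (a m * a (m + 1)) + a (m + 1) ^ 2)
        - μ ^ (5 * m) / μ ^ 5 * β * (ε * shf a m ^ 2 + shf a m * a m) = 0) : Rap a' := by
  have hμ0 : 0 < μ := by linarith
  have h1 := ha.geom (-(ν * D / N)) (r := μ ^ 4) (by positivity)
  have h2 := (ha.mul ha.shift).geom (-(β * ε / N)) (r := μ ^ 5) (by positivity)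
  have h3 := (ha.shift.mul ha.shift).geom (-(β / N)) (r := μ ^ 5) (by positivity)
  have h4 := (ha.shf.mul ha.shf).geom (β * ε / (N * μ ^ 5)) (r := μ ^ 5) (by positivity)
  have h5 := (ha.shf.mul ha).geom (β / (N * μ ^ 5)) (r := μ ^ 5) (by positivity)
  have h6 := (((h1.add h2).add h3).add h4).add h5
  refine (congrArg Rap (funext fun m => ?_)).mp h6
  have e4 : μ ^ (4 * m) = (μ ^ 4) ^ m := by ring
  have e5 : μ ^ (5 * m) = (μ ^ 5) ^ m := by ring
  have h := hode m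
  rw [e4, e5] at h
  field_simp at h ⊢
  linear_combination (-1 : ℝ) * h

theorem test_zero (hF : Fld μ ε ψ) (hμ : 2 ≤ μ) (hN : 0 < ip ψ ψ)
    (hβ1 : tri (dil μ ψ) ψ (dil μ ψ) = -β) (hβ2 : tri ψ ψ (dil μ ψ) = -(ε * β))
    {w : ℝ → V → V} {T' : ℝ} {c : ℕ → ℝ → ℝ}
    (hm : ∀ s ∈ Ico 0 T', Mem μ ψ (fun n => c n s) (w s)) {t : ℝ} (ht : t ∈ Ioo 0 T')
    {c' : ℕ → ℝ} (hc : ∀ n, HasDerivAt (c n) (c' n) t) (ν : ℝ)
    (hg : ∀ m, ∫ x, ∑ i, residual ν w t x i * ph μ ψ m x i = 0)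
    (ha : Rap (fun n => c n t)) {v : V → V} (hv : Con μ ε β ψ v) :
    ∫ x, ∑ i, residual ν w t x i * v x i = 0 := by
  have hμ0 : 0 < μ := by linarith
  have hode : ∀ m, c' m * ip ψ ψ + ν * (c m t * μ ^ (4 * m) * Dir ψ ψ)
        + μ ^ (5 * m) * β * (ε * (c m t * c (m + 1) t) + c (m + 1) t ^ 2)
        - μ ^ (5 * m) / μ ^ 5 * β * (ε * shf (fun n => c n t) m ^ 2
          + shf (fun n => c n t) m * c m t) = 0 := by
    intro m
    rw [← red hF hμ hβ1 hβ2 hm ht hc ν m]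
    exact hg m
  have ha' : Rap c' := rap_prime hμ hN ν ha hode
  obtain ⟨hi, hs⟩ := Qf_summ hF hμ ν ha ha' hv.l2
  have key := hasSum_integral_of_summable_integral_norm hi hs
  have e1 : ∫ x, ∑' n, ∑ i, Qf μ ν ψ (fun n => c n t) c' n x i * v x i
      = ∫ x, ∑ i, residual ν w t x i * v x i := by
    apply integral_congr_ae
    filter_upwards [ae_ne_zero] with x hx
    have h1 : HasSum (fun n => ∑ i, Qf μ ν ψ (fun n => c n t) c' n x i * v x i)
        (∑ i, residual ν w t x i * v x i) :=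
      hasSum_sum fun i _ => (res_fin hF hμ hm ht hc ν hx i).mul_right _
    exact h1.tsum_eq
  rw [e1] at key
  set S := ∫ x, ∑ i, residual ν w t x i * v x i with hS
  set P : ℕ → ℝ := fun n => ip (ph μ ψ n) v with hP
  set a : ℕ → ℝ := fun n => c n t with haa
  set b : ℕ → ℝ := fun n => β * (μ ^ n) ^ 5 * ((ε * a n ^ 2 + a n * a (n + 1)) * P (n + 1)
    + a (n + 1) ^ 2 * P n) with hb
  have hterm : ∀ n, ip ψ ψ * ∫ x, ∑ i, Qf μ ν ψ a c' n x i * v x i = shf b n - b n := by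
    intro n
    rw [ip_Qf hF hμ ν a c' n hv.l2]
    have f1 := hv.fa hF hμ n
    have f2 := hv.fb hF hμ n
    have f3 := hv.fc hF hμ n
    have f4 := hode n
    have e4 : μ ^ (4 * n) = (μ ^ n) ^ 4 := by ring
    have e5 : μ ^ (5 * n) = (μ ^ n) ^ 5 := by ring
    rw [e4, e5] at f4
    have e6 : (fun k => ip (ph μ ψ k) v) = P := rfl
    have e7 : ∀ k, ip (ph μ ψ k) v = P k := fun k => rfl
    simp only [e6, e7] at f1 f2 f3
    have e8 : ip (ph μ ψ n) v = P n := rfl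
    rw [e8]
    have g4 : c' n * ip ψ ψ = -(ν * (a n * (μ ^ n) ^ 4 * Dir ψ ψ))
        - (μ ^ n) ^ 5 * β * (ε * (a n * a (n + 1)) + a (n + 1) ^ 2)
        + (μ ^ n) ^ 5 / μ ^ 5 * β * (ε * shf a n ^ 2 + shf a n * a n) := by
      have : shf (fun n => c n t) = shf a := rfl
      rw [this] at f4
      linear_combination f4
    have g5 : shf b n = (μ ^ n) ^ 5 / μ ^ 5 * β * ((ε * shf a n ^ 2 + shf a n * a n) * P n
        + a n ^ 2 * shf P n) := by
      cases n with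
      | zero =>
        show (0 : ℝ) = (μ ^ 0) ^ 5 / μ ^ 5 * β * ((ε * 0 ^ 2 + 0 * a 0) * P 0 + a 0 ^ 2 * 0)
        ring
      | succ k =>
        show b k = (μ ^ (k + 1)) ^ 5 / μ ^ 5 * β * ((ε * a k ^ 2 + a k * a (k + 1)) * P (k + 1)
          + a (k + 1) ^ 2 * P k)
        rw [hb]
        field_simp
        ring
    rw [g5, hb]
    simp only
    have g6 : (μ ^ n) ^ 5 / μ ^ 5 = (μ ^ n) ^ 5 * (μ ^ 5)⁻¹ := by rw [div_eq_mul_inv]
    rw [g6] at g4 ⊢
    linear_combination P n * g4 + a n ^ 2 * f1 + a n * a (n + 1) * f2 - ν * a n * f3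
  have hpart : ∀ M : ℕ, ∑ n ∈ Finset.range (M + 1),
      ip ψ ψ * ∫ x, ∑ i, Qf μ ν ψ a c' n x i * v x i = -b M := by
    intro M
    induction M with
    | zero =>
      rw [Finset.sum_range_one, hterm]
      show 0 - b 0 = -b 0
      ring
    | succ M ih =>
      rw [Finset.sum_range_succ, ih, hterm]
      show -b M + (b M - b (M + 1)) = _
      ring
  have hb0 : Tendsto b atTop (𝓝 0) := by
    obtain ⟨C, hC0, hC⟩ := ip_growth hF hμ hv.l2
    have r1 : Rap (fun n => β * (μ ^ 5) ^ n * (ε * (a n * a n) + a n * a (n + 1))) := by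
      have h1 := (ha.mul ha).geom ε (r := 1) one_pos
      have h2 := (h1.add (ha.mul ha.shift)).geom β (r := μ ^ 5) (by positivity)
      refine (congrArg Rap (funext fun n => ?_)).mp h2
      rw [one_pow]
      ring
    have r2 : Rap (fun n => β * (μ ^ 5) ^ n * (a (n + 1) * a (n + 1))) :=
      (ha.shift.mul ha.shift).geom β (by positivity)
    have s1 := ((r1.summ (r := μ ^ 3) (by positivity)).tendsto_atTop_zero).mul_const (μ ^ 3 * C)
    have s2 := ((r2.summ (r := μ ^ 3) (by positivity)).tendsto_atTop_zero).mul_const C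
    have s3 := s1.add s2
    simp only [zero_mul, add_zero] at s3
    apply squeeze_zero_norm _ s3
    intro n
    have h1 := hC n
    have h2 := hC (n + 1)
    rw [Real.norm_eq_abs]
    have e : b n = (β * (μ ^ 5) ^ n * (ε * (a n * a n) + a n * a (n + 1))) * P (n + 1)
        + (β * (μ ^ 5) ^ n * (a (n + 1) * a (n + 1))) * P n := by
      rw [hb]
      ring
    rw [e]
    refine (abs_add_le _ _).trans (add_le_add ?_ ?_)
    · rw [abs_mul]
      refine (mul_le_mul_of_nonneg_left h2 (abs_nonneg _)).trans (le_of_eq ?_)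
      ring
    · rw [abs_mul]
      refine (mul_le_mul_of_nonneg_left h1 (abs_nonneg _)).trans (le_of_eq ?_)
      ring
  have key2 : HasSum (fun n => ip ψ ψ * ∫ x, ∑ i, Qf μ ν ψ a c' n x i * v x i) (ip ψ ψ * S) :=
    key.mul_left _
  have key3 := (key2.tendsto_sum_nat).comp (tendsto_add_atTop_nat 1)
  have key4 : Tendsto (fun M : ℕ => -b M) atTop (𝓝 (-0)) := hb0.neg
  have e2 : ((fun n => ∑ i ∈ Finset.range n,
      ip ψ ψ * ∫ x, ∑ i_1, Qf μ ν ψ a c' i x i_1 * v x i_1) ∘ fun a => a + 1)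
      = fun M => -b M := funext hpart
  rw [e2] at key3
  have h5 := tendsto_nhds_unique key3 key4
  rw [neg_zero] at h5
  exact (mul_eq_zero.1 h5).resolve_left hN.ne'

end

end Pool.Agent.Run7.h407
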