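import Mathlib
import Pool.Agent.Run7.h407.W.L2

/-!
Smooth time-dependent fields with locally uniform square integrable derivatives.
-/

namespace Pool.Agent.Run7.h407

open Set Filter Topology MeasureTheory
open scoped ContDiff

/-- Smoothness on `[0,T) × ℝ³`. -/
def SmT (T : ℝ) (w : ℝ → V → V) : Prop :=
  ContDiffOn ℝ ∞ (fun z : ℝ × V => w z.1 z.2) (Ico 0 T ×ˢ univ)

namespace SmT

variable {T : ℝ} {w : ℝ → V → V}

theorem FD_cont (h : SmT T w) : ContinuousOn (FD T w) (Ico 0 T ×ˢ univ) :=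
  h.continuousOn_fderivWithin ((uniqueDiffOn_Ico 0 T).prod uniqueDiffOn_univ) (by simp)

theorem FD_has (h : SmT T w) {z : ℝ × V} (hz : z ∈ Ico 0 T ×ˢ (univ : Set V)) :
    HasFDerivWithinAt (fun z : ℝ × V => w z.1 z.2) (FD T w z) (Ico 0 T ×ˢ univ) z :=
  ((h z hz).differentiableWithinAt (by simp)).hasFDerivWithinAt

theorem slice_cont (h : SmT T w) {t : ℝ} (ht : t ∈ Ico 0 T) : ContDiff ℝ ∞ (w t) := by
  rw [← contDiffOn_univ]
  have h1 : ContDiffOn ℝ ∞ (fun x : V => (t, x)) univ :=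
    (contDiff_const.prodMk contDiff_id).contDiffOn
  exact h.comp h1 (fun x _ => ⟨ht, mem_univ _⟩)

theorem time_deriv (h : SmT T w) {t : ℝ} (ht : t ∈ Ioo 0 T) (x : V) (i : Fin 3) :
    HasDerivAt (fun s => w s x i) (FD T w (t, x) (1, 0) i) t := by
  have hn : Ico 0 T ×ˢ (univ : Set V) ∈ 𝓝 (t, x) :=
    prod_mem_nhds (Ico_mem_nhds ht.1 ht.2) univ_mem
  have h1 : HasFDerivAt (fun z : ℝ × V => w z.1 z.2) (FD T w (t, x)) (t, x) :=
    (h.FD_has ⟨⟨ht.1.le, ht.2⟩, mem_univ _⟩).hasFDerivAt hn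
  have h2 : HasDerivAt (fun s : ℝ => (s, x)) ((1 : ℝ), (0 : V)) t :=
    (hasDerivAt_id t).prodMk (hasDerivAt_const t x)
  have h3 := h1.comp_hasDerivAt t h2
  exact (hasDerivAt_pi.1 h3) i

theorem coord_cont (h : SmT T w) (i : Fin 3) :
    ContinuousOn (fun z : ℝ × V => w z.1 z.2 i) (Ico 0 T ×ˢ univ) :=
  (continuous_apply i).comp_continuousOn h.continuousOn

theorem FDv_cont (h : SmT T w) (v : ℝ × V) (i : Fin 3) :
    ContinuousOn (fun z : ℝ × V => FD T w z v i) (Ico 0 T ×ˢ univ) :=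
  (continuous_apply i).comp_continuousOn (h.FD_cont.clm_apply continuousOn_const)

theorem sub {u : ℝ → V → V} (hw : SmT T w) (hu : SmT T u) : SmT T (fun t x => w t x - u t x) :=
  ContDiffOn.sub hw hu

end SmT

/-- `f` is square integrable with `∫ f² ≤ C`. -/
def Sq (C : ℝ) (f : V → ℝ) : Prop := MemLp f 2 volume ∧ ∫ x, f x ^ 2 ≤ C

theorem Sq.mono {C C' : ℝ} {f : V → ℝ} (h : Sq C f) (hC : C ≤ C') : Sq C' f :=
  ⟨h.1, h.2.trans hC⟩

theorem Sq.sub {C C' : ℝ} {f g : V → ℝ} (hf : Sq C f) (hg : Sq C' g) :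
    Sq (2 * C + 2 * C') (fun x => f x - g x) := by
  refine ⟨hf.1.sub hg.1, ?_⟩
  have i1 := hf.1.integrable_sq
  have i2 := hg.1.integrable_sq
  have h1 : ∫ x, (f x - g x) ^ 2 ≤ ∫ x, (2 * f x ^ 2 + 2 * g x ^ 2) := by
    apply integral_mono (hf.1.sub hg.1).integrable_sq ((i1.const_mul 2).add (i2.const_mul 2))
    intro x
    show (f x - g x) ^ 2 ≤ 2 * f x ^ 2 + 2 * g x ^ 2
    nlinarith [sq_nonneg (f x + g x)]
  rw [integral_add (i1.const_mul 2) (i2.const_mul 2), integral_const_mul, integral_const_mul] at h1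
  linarith [hf.2, hg.2]

/-- The class of solutions. -/
structure Cls (T : ℝ) (u : ℝ → V → V) : Prop where
  sm : SmT T u
  bd : ∀ s ∈ Ico 0 T, ∃ C : ℝ, ∀ t ∈ Icc 0 s, (∀ x, ‖u t x‖ ≤ C) ∧
    ∀ i, Sq C (fun x => u t x i) ∧ (∀ j, Sq C (pd j (fun y => u t y i))) ∧
      (∀ j k, Sq C (pd j (pd k (fun y => u t y i)))) ∧
      (0 < t → Sq C (fun x => deriv (fun s => u s x i) t))

/-- The class of time slices. -/
structure Sl (v : V → V) : Prop where
  sm : ContDiff ℝ ∞ v
  bd : ∃ C, ∀ x, ‖v x‖ ≤ C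
  l0 : L2F v
  l1 : ∀ i j, MemLp (pd j (fun y => v y i)) 2 volume
  l2 : ∀ i j k, MemLp (pd j (pd k (fun y => v y i))) 2 volume

theorem Cls.sl {T : ℝ} {u : ℝ → V → V} (h : Cls T u) {t : ℝ} (ht : t ∈ Ico 0 T) : Sl (u t) := by
  obtain ⟨C, hC⟩ := h.bd t ht
  have h1 := hC t ⟨ht.1, le_rfl⟩
  exact ⟨h.sm.slice_cont ht, ⟨C, h1.1⟩, fun i => (h1.2 i).1.1, fun i j => ((h1.2 i).2.1 j).1,
    fun i j k => ((h1.2 i).2.2.1 j k).1⟩

theorem pd_subf {u v : V → V} (hu : ContDiff ℝ ∞ u) (hv : ContDiff ℝ ∞ v) (i j : Fin 3) :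
    pd j (fun y => (u y - v y) i) = fun y => pd j (fun y => u y i) y - pd j (fun y => v y i) y := by
  funext y
  exact pd_sub ((sm_comp hu i).diff y) ((sm_comp hv i).diff y) j

theorem pd_pd_subf {u v : V → V} (hu : ContDiff ℝ ∞ u) (hv : ContDiff ℝ ∞ v) (i j k : Fin 3) :
    pd j (pd k (fun y => (u y - v y) i))
      = fun y => pd j (pd k (fun y => u y i)) y - pd j (pd k (fun y => v y i)) y := by
  rw [pd_subf hu hv]
  funext y
  exact pd_sub (((sm_comp hu i).pd k).diff y) (((sm_comp hv i).pd k).diff y) j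

theorem Cls.sub {T : ℝ} {u v : ℝ → V → V} (hu : Cls T u) (hv : Cls T v) :
    Cls T (fun t x => u t x - v t x) := by
  refine ⟨hu.sm.sub hv.sm, fun s hs => ?_⟩
  obtain ⟨C1, h1⟩ := hu.bd s hs
  obtain ⟨C2, h2⟩ := hv.bd s hs
  refine ⟨|2 * C1 + 2 * C2| + |C1 + C2|, fun t ht => ?_⟩
  have ht' : t ∈ Ico 0 T := ⟨ht.1, ht.2.trans_lt hs.2⟩
  obtain ⟨a1, a2⟩ := h1 t ht
  obtain ⟨b1, b2⟩ := h2 t ht
  have su := hu.sm.slice_cont ht'
  have sv := hv.sm.slice_cont ht'
  have hle : 2 * C1 + 2 * C2 ≤ |2 * C1 + 2 * C2| + |C1 + C2| := by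
    have := le_abs_self (2 * C1 + 2 * C2)
    have := abs_nonneg (C1 + C2)
    linarith
  constructor
  · intro x
    have k1 := a1 x
    have k2 := b1 x
    have k3 := norm_sub_le (u t x) (v t x)
    have k4 := le_abs_self (C1 + C2)
    have k5 := abs_nonneg (2 * C1 + 2 * C2)
    linarith
  · intro i
    obtain ⟨a3, a4, a5, a6⟩ := a2 i
    obtain ⟨b3, b4, b5, b6⟩ := b2 i
    refine ⟨(a3.sub b3).mono hle, fun j => ?_, fun j k => ?_, fun h0 => ?_⟩
    · rw [pd_subf su sv]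
      exact ((a4 j).sub (b4 j)).mono hle
    · rw [pd_pd_subf su sv]
      exact ((a5 j k).sub (b5 j k)).mono hle
    · have ht2 : t ∈ Ioo 0 T := ⟨h0, ht'.2⟩
      have e : (fun x => deriv (fun s => (u s x - v s x) i) t)
          = fun x => deriv (fun s => u s x i) t - deriv (fun s => v s x i) t := by
        funext x
        have d1 := hu.sm.time_deriv ht2 x i
        have d2 := hv.sm.time_deriv ht2 x i
        rw [d1.deriv, d2.deriv]
        exact (d1.sub d2).deriv
      rw [e]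
      exact ((a6 h0).sub (b6 h0)).mono hle

theorem Cls.restrict {T T' : ℝ} {u : ℝ → V → V} (hu : Cls T u) (h : T' ≤ T) : Cls T' u := by
  refine ⟨hu.sm.mono (prod_mono (Ico_subset_Ico_right h) subset_rfl), fun s hs => ?_⟩
  exact hu.bd s ⟨hs.1, hs.2.trans_le h⟩

/-- The integrand of the energy formula. -/
noncomputable def Eg (T : ℝ) (d : ℝ → V → V) (z : ℝ × V) : ℝ :=
  ∑ i, 2 * (d z.1 z.2 i * FD T d z (1, 0) i)

theorem Cls.Eg_int {T : ℝ} {d : ℝ → V → V} (h : Cls T d) {t : ℝ} (ht : t ∈ Ico 0 T) :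
    Integrable (Eg T d) ((volume.restrict (Ioc 0 t)).prod (volume : Measure V)) := by
  obtain ⟨C, hC⟩ := h.bd t ht
  have hsub : Ioc 0 t ×ˢ (univ : Set V) ⊆ Ico 0 T ×ˢ univ := by
    rintro ⟨s, x⟩ ⟨hs, _⟩
    exact ⟨⟨hs.1.le, hs.2.trans_lt ht.2⟩, mem_univ _⟩
  have hc : ContinuousOn (Eg T d) (Ioc 0 t ×ˢ univ) := by
    apply ContinuousOn.mono _ hsub
    unfold Eg
    apply continuousOn_finsetSum
    intro i _
    exact continuousOn_const.mul ((h.sm.coord_cont i).mul (h.sm.FDv_cont (1, 0) i))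
  have hm : AEStronglyMeasurable (Eg T d)
      ((volume.restrict (Ioc 0 t)).prod (volume : Measure V)) := by
    have e : (volume.restrict (Ioc (0 : ℝ) t)).prod (volume : Measure V)
        = ((volume : Measure ℝ).prod (volume : Measure V)).restrict (Ioc 0 t ×ˢ univ) := by
      rw [← Measure.prod_restrict, Measure.restrict_univ]
    rw [e]
    exact hc.aestronglyMeasurable (measurableSet_Ioc.prod MeasurableSet.univ)
  have hsl : ∀ s ∈ Ioc 0 t, Integrable (fun x => Eg T d (s, x)) volume ∧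
      ∫ x, ‖Eg T d (s, x)‖ ≤ 6 * C := by
    intro s hs
    have hs' : s ∈ Ioo 0 T := ⟨hs.1, hs.2.trans_lt ht.2⟩
    obtain ⟨_, h2⟩ := hC s ⟨hs.1.le, hs.2⟩
    have e : ∀ i, (fun x => FD T d (s, x) (1, 0) i) = fun x => deriv (fun r => d r x i) s := by
      intro i
      funext x
      exact (h.sm.time_deriv hs' x i).deriv.symm
    have k1 : ∀ i, Sq C (fun x => d s x i) := fun i => (h2 i).1
    have k2 : ∀ i, Sq C (fun x => FD T d (s, x) (1, 0) i) := by
      intro i
      rw [e i]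
      exact (h2 i).2.2.2 hs.1
    have hi : ∀ i, Integrable (fun x => 2 * (d s x i * FD T d (s, x) (1, 0) i)) volume :=
      fun i => ((k1 i).1.integrable_mul (k2 i).1).const_mul 2
    have hI : Integrable (fun x => Eg T d (s, x)) volume := integrable_finsetSum _ fun i _ => hi i
    refine ⟨hI, ?_⟩
    have h3 : ∀ i, Integrable (fun x => d s x i ^ 2 + FD T d (s, x) (1, 0) i ^ 2) volume :=
      fun i => (k1 i).1.integrable_sq.add (k2 i).1.integrable_sq
    calc ∫ x, ‖Eg T d (s, x)‖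
        ≤ ∫ x, ∑ i, (d s x i ^ 2 + FD T d (s, x) (1, 0) i ^ 2) := by
          apply integral_mono hI.norm (integrable_finsetSum _ fun i _ => h3 i)
          intro x
          unfold Eg
          refine (norm_sum_le _ _).trans (Finset.sum_le_sum fun i _ => ?_)
          rw [Real.norm_eq_abs, abs_le]
          constructor <;> nlinarith [sq_nonneg (d s x i + FD T d (s, x) (1, 0) i),
            sq_nonneg (d s x i - FD T d (s, x) (1, 0) i)]
      _ = ∑ i, ((∫ x, d s x i ^ 2) + ∫ x, FD T d (s, x) (1, 0) i ^ 2) := by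
          rw [integral_finsetSum _ fun i _ => h3 i]
          apply Finset.sum_congr rfl
          intro i _
          exact integral_add (k1 i).1.integrable_sq (k2 i).1.integrable_sq
      _ ≤ ∑ _i : Fin 3, (C + C) :=
          Finset.sum_le_sum fun i _ => add_le_add (k1 i).2 (k2 i).2
      _ = 6 * C := by
          rw [Finset.sum_const, Finset.card_univ, Fintype.card_fin]
          simp
          ring
  rw [integrable_prod_iff hm]
  constructor
  · rw [ae_restrict_iff' measurableSet_Ioc]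
    exact Eventually.of_forall fun s hs => (hsl s hs).1
  · have : IsFiniteMeasure ((volume : Measure ℝ).restrict (Ioc 0 t)) :=
      ⟨by
        rw [Measure.restrict_apply_univ]
        exact measure_Ioc_lt_top⟩
    apply Integrable.of_bound hm.norm.integral_prod_right' (6 * C)
    rw [ae_restrict_iff' measurableSet_Ioc]
    refine Eventually.of_forall fun s hs => ?_
    rw [Real.norm_eq_abs, abs_of_nonneg (integral_nonneg fun x => norm_nonneg _)]
    exact (hsl s hs).2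

/-- The energy formula. -/
theorem Cls.energy {T : ℝ} {d : ℝ → V → V} (h : Cls T d) {t : ℝ} (ht : t ∈ Ico 0 T) :
    IntegrableOn (fun s => ∫ x, Eg T d (s, x)) (Ioc 0 t) ∧
    ip (d t) (d t) - ip (d 0) (d 0) = ∫ s in Ioc 0 t, ∫ x, Eg T d (s, x) := by
  have hI := h.Eg_int ht
  refine ⟨hI.integral_prod_left, ?_⟩
  have h0 : (0 : ℝ) ∈ Ico 0 T := ⟨le_rfl, ht.1.trans_lt ht.2⟩
  have hsw : ∫ s in Ioc 0 t, ∫ x, Eg T d (s, x) = ∫ x, ∫ s in Ioc 0 t, Eg T d (s, x) :=
    integral_integral_swap (f := fun s x => Eg T d (s, x)) hI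
  rw [hsw]
  have hpt : ∀ x, ∫ s in Ioc 0 t, Eg T d (s, x)
      = (∑ i, d t x i * d t x i) - ∑ i, d 0 x i * d 0 x i := by
    intro x
    rw [← intervalIntegral.integral_of_le ht.1]
    have hcc : ∀ i, ContinuousOn (fun s => d s x i) (Icc 0 t) := by
      intro i
      exact (h.sm.coord_cont i).comp (f := fun s : ℝ => (s, x)) (by fun_prop)
        (fun s hs => ⟨⟨hs.1, hs.2.trans_lt ht.2⟩, mem_univ _⟩)
    have hcd : ∀ i, ContinuousOn (fun s => FD T d (s, x) (1, 0) i) (Icc 0 t) := by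
      intro i
      exact (h.sm.FDv_cont (1, 0) i).comp (f := fun s : ℝ => (s, x)) (by fun_prop)
        (fun s hs => ⟨⟨hs.1, hs.2.trans_lt ht.2⟩, mem_univ _⟩)
    have key := intervalIntegral.integral_eq_sub_of_hasDerivAt_of_le ht.1
      (f := fun s => ∑ i, d s x i * d s x i) (f' := fun s => Eg T d (s, x))
      (continuousOn_finsetSum _ fun i _ => (hcc i).mul (hcc i))
      (fun s hs => by
        unfold Eg
        apply HasDerivAt.fun_sum
        intro i _
        have h1 := h.sm.time_deriv (t := s) ⟨hs.1, hs.2.trans ht.2⟩ x i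
        have h2 := h1.mul h1
        refine h2.congr_deriv ?_
        ring)
      (by
        apply ContinuousOn.intervalIntegrable
        rw [uIcc_of_le ht.1]
        unfold Eg
        apply continuousOn_finsetSum
        intro i _
        exact continuousOn_const.mul ((hcc i).mul (hcd i)))
    rw [key]
  simp_rw [hpt]
  have i1 := ipL_int (h.sl ht).l0 (h.sl ht).l0
  have i2 := ipL_int (h.sl h0).l0 (h.sl h0).l0
  rw [integral_sub i1 i2]
  rfl

end Pool.Agent.Run7.h407
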