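import Mathlib
import Pool.Agent.Run7.h407.W.Cls

/-!
Integration by parts for time slices, and the balance of energy for the difference of two
solutions.
-/

namespace Pool.Agent.Run7.h407

open Set Filter Topology MeasureTheory
open scoped ContDiff

/-- Integration by parts for integrable products. -/
theorem ibpI {f g : V → ℝ} (hf : Sm f) (hg : Sm g) (j : Fin 3)
    (h1 : Integrable (fun x => pd j f x * g x) volume)
    (h2 : Integrable (fun x => f x * pd j g x) volume)
    (h3 : Integrable (fun x => f x * g x) volume) :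
    ∫ x, f x * pd j g x = -∫ x, pd j f x * g x := by
  unfold pd
  apply integral_mul_fderiv_eq_neg_fderiv_mul_of_integrable
  · exact h1
  · exact h2
  · exact h3
  · exact fun x _ => hf.diff x
  · exact fun x _ => hg.diff x

/-- A bounded continuous function times a square integrable one. -/
theorem memLp_bdd {f g : V → ℝ} (hf : Continuous f) {C : ℝ} (hC : ∀ x, |f x| ≤ C)
    (hg : MemLp g 2 volume) : MemLp (fun x => f x * g x) 2 volume := by
  refine MemLp.of_le_mul (c := C) hg (hf.aestronglyMeasurable.mul hg.aestronglyMeasurable) ?_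
  refine Eventually.of_forall fun x => ?_
  rw [norm_mul, Real.norm_eq_abs, Real.norm_eq_abs]
  exact mul_le_mul_of_nonneg_right (hC x) (abs_nonneg _)

theorem Sl.comp_bd {v : V → V} (h : Sl v) : ∃ C, ∀ x i, |v x i| ≤ C := by
  obtain ⟨C, hC⟩ := h.bd
  refine ⟨C, fun x i => ?_⟩
  rw [← Real.norm_eq_abs]
  exact (norm_le_pi_norm _ i).trans (hC x)

theorem Sl.adv_l2 {u v : V → V} (hu : Sl u) (hv : Sl v) : L2F (adv u v) := by
  obtain ⟨C, hC⟩ := hu.comp_bd
  intro i
  unfold adv
  apply memLp_finsetSum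
  intro j _
  exact memLp_bdd (sm_comp hu.sm j).continuous (fun x => hC x j) (hv.l1 i j)

theorem Sl.lap_l2 {u : V → V} (hu : Sl u) : L2F (lap u) := by
  intro i
  unfold lap
  apply memLp_finsetSum
  intro j _
  exact hu.l2 i j j

theorem Sl.sub {u v : V → V} (hu : Sl u) (hv : Sl v) : Sl (fun x => u x - v x) := by
  obtain ⟨C1, h1⟩ := hu.bd
  obtain ⟨C2, h2⟩ := hv.bd
  refine ⟨hu.sm.sub hv.sm, ⟨C1 + C2, fun x => ?_⟩, hu.l0.sub hv.l0, fun i j => ?_, fun i j k => ?_⟩
  · exact (norm_sub_le _ _).trans (add_le_add (h1 x) (h2 x))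
  · rw [pd_subf hu.sm hv.sm]
    exact (hu.l1 i j).sub (hv.l1 i j)
  · rw [pd_pd_subf hu.sm hv.sm]
    exact (hu.l2 i j k).sub (hv.l2 i j k)

/-- The transport term does not contribute to the energy. -/
theorem adv_skew {u d : V → V} (hu : Sl u) (hdiv : ∀ x, dvg u x = 0) (hd : Sl d) :
    ip (adv u d) d = 0 := by
  obtain ⟨Cu, hCu⟩ := hu.comp_bd
  obtain ⟨Cd, hCd⟩ := hd.comp_bd
  have hdd : ∀ i, MemLp (fun x => d x i * d x i) 2 volume := fun i =>
    memLp_bdd (sm_comp hd.sm i).continuous (fun x => hCd x i) (hd.l0 i)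
  have hs : ∀ i, Sm (fun x => d x i * d x i) := fun i =>
    (sm_comp hd.sm i).mul (sm_comp hd.sm i)
  have hpd : ∀ i j x, pd j (fun y => d y i * d y i) x = 2 * (d x i * pd j (fun y => d y i) x) := by
    intro i j x
    rw [pd_mul ((sm_comp hd.sm i).diff x) ((sm_comp hd.sm i).diff x)]
    ring
  have i1 : ∀ i j, Integrable (fun x => pd j (fun y => u y j) x * (d x i * d x i)) volume :=
    fun i j => (hu.l1 j j).integrable_mul (hdd i)
  have hud : ∀ i j, MemLp (fun x => u x j * d x i) 2 volume := fun i j =>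
    memLp_bdd (sm_comp hu.sm j).continuous (fun x => hCu x j) (hd.l0 i)
  have i2' : ∀ i j, Integrable (fun x => u x j * d x i * pd j (fun y => d y i) x) volume :=
    fun i j => (hud i j).integrable_mul (hd.l1 i j)
  have i2 : ∀ i j, Integrable (fun x => u x j * pd j (fun y => d y i * d y i) x) volume := by
    intro i j
    refine (congrArg (fun f => Integrable f volume) (funext fun x => ?_)).mp ((i2' i j).const_mul 2)
    rw [hpd]
    ring
  have i3 : ∀ i j, Integrable (fun x => u x j * (d x i * d x i)) volume := by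
    intro i j
    refine (congrArg (fun f => Integrable f volume) (funext fun x => ?_)).mp
      ((hud i j).integrable_mul (hd.l0 i))
    simp only [Pi.mul_apply]
    ring
  have key : ∀ i j, 2 * ∫ x, u x j * d x i * pd j (fun y => d y i) x
      = -∫ x, pd j (fun y => u y j) x * (d x i * d x i) := by
    intro i j
    rw [← ibpI (sm_comp hu.sm j) (hs i) j (i1 i j) (i2 i j) (i3 i j), ← integral_const_mul]
    congr 1
    funext x
    rw [hpd]
    ring
  have e : ip (adv u d) d = ∑ i, ∑ j, ∫ x, u x j * d x i * pd j (fun y => d y i) x := by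
    unfold ip
    rw [← Finset.sum_congr rfl (fun i _ => integral_finsetSum _ fun j _ => i2' i j),
      ← integral_finsetSum _ fun i _ => integrable_finsetSum _ fun j _ => i2' i j]
    congr 1
    funext x
    apply Finset.sum_congr rfl
    intro i _
    unfold adv
    rw [Finset.sum_mul]
    apply Finset.sum_congr rfl
    intro j _
    ring
  have h2 : 2 * ip (adv u d) d = 0 := by
    rw [e, Finset.mul_sum]
    apply Finset.sum_eq_zero
    intro i _
    rw [Finset.mul_sum]
    simp_rw [key]
    rw [Finset.sum_neg_distrib, ← integral_finsetSum _ fun j _ => i1 i j]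
    have h3 : (fun x => ∑ j, pd j (fun y => u y j) x * (d x i * d x i)) = fun _ => 0 := by
      funext x
      rw [← Finset.sum_mul]
      have := hdiv x
      unfold dvg at this
      rw [this, zero_mul]
    rw [h3]
    simp
  linarith

theorem lap_skew {d : V → V} (hd : Sl d) : ip (lap d) d = -Dir d d := by
  have i1 : ∀ i j, Integrable (fun x => pd j (fun y => d y i) x * pd j (fun y => d y i) x) volume :=
    fun i j => (hd.l1 i j).integrable_mul (hd.l1 i j)
  have i2 : ∀ i j, Integrable (fun x => d x i * pd j (pd j (fun y => d y i)) x) volume :=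
    fun i j => (hd.l0 i).integrable_mul (hd.l2 i j j)
  have i3 : ∀ i j, Integrable (fun x => d x i * pd j (fun y => d y i) x) volume :=
    fun i j => (hd.l0 i).integrable_mul (hd.l1 i j)
  have key : ∀ i j, ∫ x, d x i * pd j (pd j (fun y => d y i)) x
      = -∫ x, pd j (fun y => d y i) x * pd j (fun y => d y i) x := fun i j =>
    ibpI (sm_comp hd.sm i) ((sm_comp hd.sm i).pd j) j (i1 i j) (i2 i j) (i3 i j)
  unfold ip Dir
  rw [integral_finsetSum _ fun i _ => integrable_finsetSum _ fun j _ => i1 i j,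
    ← Finset.sum_neg_distrib]
  have e : (fun x => ∑ i, lap d x i * d x i)
      = fun x => ∑ i, ∑ j, d x i * pd j (pd j (fun y => d y i)) x := by
    funext x
    apply Finset.sum_congr rfl
    intro i _
    unfold lap
    rw [Finset.sum_mul]
    apply Finset.sum_congr rfl
    intro j _
    ring
  rw [e, integral_finsetSum _ fun i _ => integrable_finsetSum _ fun j _ => i2 i j]
  apply Finset.sum_congr rfl
  intro i _
  rw [integral_finsetSum _ fun j _ => i2 i j, integral_finsetSum _ fun j _ => i1 i j,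
    ← Finset.sum_neg_distrib]
  exact Finset.sum_congr rfl fun j _ => key i j

/-- The stretching term is controlled by the gradient. -/
theorem adv_bound {u d : V → V} (hd : Sl d) (hu : Sl u) {G : ℝ}
    (hG : ∀ x i j, |pd j (fun y => u y i) x| ≤ G) : |ip (adv d u) d| ≤ 3 * G * ip d d := by
  have hG0 : 0 ≤ G := (abs_nonneg _).trans (hG 0 0 0)
  have i1 := ipL_int (hd.adv_l2 hu) hd.l0
  have i2 := ipL_int hd.l0 hd.l0
  unfold ip
  rw [← integral_const_mul, ← Real.norm_eq_abs]
  refine (norm_integral_le_integral_norm _).trans ?_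
  apply integral_mono i1.norm (i2.const_mul _)
  intro x
  show ‖∑ i, adv d u x i * d x i‖ ≤ 3 * G * ∑ i, d x i * d x i
  have h1 : ∀ i, ‖adv d u x i * d x i‖ ≤ ∑ j, G * (|d x j| * |d x i|) := by
    intro i
    rw [norm_mul, Real.norm_eq_abs, Real.norm_eq_abs]
    unfold adv
    have h2 : |∑ j, d x j * pd j (fun y => u y i) x| ≤ ∑ j, |d x j| * G := by
      refine (Finset.abs_sum_le_sum_abs _ _).trans (Finset.sum_le_sum fun j _ => ?_)
      rw [abs_mul]
      exact mul_le_mul_of_nonneg_left (hG x i j) (abs_nonneg _)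
    refine (mul_le_mul_of_nonneg_right h2 (abs_nonneg _)).trans (le_of_eq ?_)
    rw [Finset.sum_mul]
    apply Finset.sum_congr rfl
    intro j _
    ring
  refine (norm_sum_le _ _).trans ((Finset.sum_le_sum fun i _ => h1 i).trans ?_)
  have h3 : ∀ i, d x i * d x i = |d x i| * |d x i| := fun i => (abs_mul_abs_self _).symm
  simp_rw [h3, Fin.sum_univ_three]
  set a := |d x 0|
  set b := |d x 1|
  set c := |d x 2|
  nlinarith [mul_nonneg hG0 (sq_nonneg (a - b)), mul_nonneg hG0 (sq_nonneg (b - c)),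
    mul_nonneg hG0 (sq_nonneg (a - c))]

/-- The time derivative. -/
noncomputable def dtf (w : ℝ → V → V) (t : ℝ) (x : V) : V := fun i => deriv (fun s => w s x i) t

theorem Cls.dt_l2 {T : ℝ} {u : ℝ → V → V} (h : Cls T u) {t : ℝ} (ht : t ∈ Ioo 0 T) :
    L2F (dtf u t) := by
  obtain ⟨C, hC⟩ := h.bd t ⟨ht.1.le, ht.2⟩
  exact fun i => (((hC t ⟨ht.1.le, le_rfl⟩).2 i).2.2.2 ht.1).1

theorem ip_res {T ν : ℝ} {w : ℝ → V → V} (h : Cls T w) {t : ℝ} (ht : t ∈ Ioo 0 T) {v : V → V}
    (hv : L2F v) : ∫ x, ∑ i, residual ν w t x i * v x i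
      = ip (dtf w t) v + ip (adv (w t) (w t)) v - ν * ip (lap (w t)) v := by
  have hs := h.sl ⟨ht.1.le, ht.2⟩
  have e : ∫ x, ∑ i, residual ν w t x i * v x i
      = ip (fun x => (fun x => dtf w t x + adv (w t) (w t) x) x - ν • lap (w t) x) v := rfl
  rw [e, ipL_sub ((h.dt_l2 ht).add (hs.adv_l2 hs)) (hs.lap_l2.smul ν) hv,
    ipL_add (h.dt_l2 ht) (hs.adv_l2 hs) hv, ip_smul_left]

theorem adv_diff {w u : V → V} (hw : ContDiff ℝ ∞ w) (hu : ContDiff ℝ ∞ u) (x : V) :
    adv w w x - adv u u x
      = adv w (fun y => w y - u y) x + adv (fun y => w y - u y) u x := by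
  funext i
  show (∑ j, w x j * pd j (fun y => w y i) x) - (∑ j, u x j * pd j (fun y => u y i) x)
    = (∑ j, w x j * pd j (fun y => (w y - u y) i) x)
      + ∑ j, (w x - u x) j * pd j (fun y => u y i) x
  simp_rw [pd_subf hw hu]
  rw [← Finset.sum_sub_distrib, ← Finset.sum_add_distrib]
  apply Finset.sum_congr rfl
  intro j _
  simp only [Pi.sub_apply]
  ring

theorem lap_diff {w u : V → V} (hw : ContDiff ℝ ∞ w) (hu : ContDiff ℝ ∞ u) (x : V) :
    lap (fun y => w y - u y) x = lap w x - lap u x := by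
  funext i
  show (∑ j, pd j (pd j (fun y => (w y - u y) i)) x)
    = (∑ j, pd j (pd j (fun y => w y i)) x) - ∑ j, pd j (pd j (fun y => u y i)) x
  simp_rw [pd_pd_subf hw hu]
  rw [← Finset.sum_sub_distrib]

/-- The balance for the difference of two solutions. -/
theorem diff_balance {T ν : ℝ} {w u : ℝ → V → V} (hw : Cls T w) (hu : Cls T u) {t : ℝ}
    (ht : t ∈ Ioo 0 T) (hdiv : ∀ x, dvg (w t) x = 0)
    (h1 : ∫ x, ∑ i, residual ν w t x i * (w t x - u t x) i = 0)
    (h2 : ∫ x, ∑ i, residual ν u t x i * (w t x - u t x) i = 0) :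
    ip (dtf (fun s x => w s x - u s x) t) (fun x => w t x - u t x)
      = -ip (adv (fun x => w t x - u t x) (u t)) (fun x => w t x - u t x)
        - ν * Dir (fun x => w t x - u t x) (fun x => w t x - u t x) := by
  have ht' : t ∈ Ico 0 T := ⟨ht.1.le, ht.2⟩
  have sw := hw.sl ht'
  have su := hu.sl ht'
  have sd : Sl (fun x => w t x - u t x) := sw.sub su
  set d : V → V := fun x => w t x - u t x with hd
  have h1' := (ip_res (ν := ν) hw ht sd.l0).symm.trans h1
  have h2' := (ip_res (ν := ν) hu ht sd.l0).symm.trans h2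
  have e1 : dtf (fun s x => w s x - u s x) t = fun x => dtf w t x - dtf u t x := by
    funext x i
    have d1 := hw.sm.time_deriv ht x i
    have d2 := hu.sm.time_deriv ht x i
    show deriv (fun s => w s x i - u s x i) t = deriv (fun s => w s x i) t
      - deriv (fun s => u s x i) t
    rw [d1.deriv, d2.deriv]
    exact (d1.sub d2).deriv
  have e2 : ip (adv (w t) (w t)) d - ip (adv (u t) (u t)) d
      = ip (adv (w t) d) d + ip (adv d (u t)) d := by
    rw [← ipL_sub (sw.adv_l2 sw) (su.adv_l2 su) sd.l0,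
      ← ipL_add (sw.adv_l2 sd) (sd.adv_l2 su) sd.l0]
    congr 1
    funext x
    exact adv_diff sw.sm su.sm x
  have e3 : ip (lap (w t)) d - ip (lap (u t)) d = ip (lap d) d := by
    rw [← ipL_sub sw.lap_l2 su.lap_l2 sd.l0]
    congr 1
    funext x
    exact (lap_diff sw.sm su.sm x).symm
  rw [adv_skew sw hdiv sd] at e2
  rw [lap_skew sd] at e3
  rw [e1, ipL_sub (hw.dt_l2 ht) (hu.dt_l2 ht) sd.l0]
  linear_combination h1' - h2' - e2 + ν * e3

/-- The balance of energy for one solution. -/
theorem self_balance {T ν : ℝ} {w : ℝ → V → V} (hw : Cls T w) {t : ℝ}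
    (ht : t ∈ Ioo 0 T) (hdiv : ∀ x, dvg (w t) x = 0)
    (h1 : ∫ x, ∑ i, residual ν w t x i * w t x i = 0) :
    ip (dtf w t) (w t) = -(ν * Dir (w t) (w t)) := by
  have ht' : t ∈ Ico 0 T := ⟨ht.1.le, ht.2⟩
  have sw := hw.sl ht'
  have h1' := (ip_res (ν := ν) hw ht sw.l0).symm.trans h1
  rw [adv_skew sw hdiv sw, lap_skew sw] at h1'
  linear_combination h1'

end Pool.Agent.Run7.h407
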