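import Mathlib
import Pool.Agent.Run7.h407.W.Slice
import Pool.Agent.Run7.h407.W.Orth

/-!
Uniqueness and the energy equality in the class of solutions.
-/

namespace Pool.Agent.Run7.h407

open Set Filter Topology MeasureTheory
open scoped ContDiff

/-- Gronwall's lemma for primitives. -/
theorem gron {y g : ℝ → ℝ} {b K : ℝ} (hK : 0 ≤ K) (hb : 0 ≤ b)
    (hg : IntegrableOn g (Ioc 0 b)) (hy : ∀ t ∈ Icc 0 b, y t = ∫ s in Ioc 0 t, g s)
    (hgy : ∀ s ∈ Ioc 0 b, g s ≤ K * y s) : ∀ t ∈ Icc 0 b, y t ≤ 0 := by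
  have hg' : IntegrableOn g (Icc 0 b) := by rwa [integrableOn_Icc_iff_integrableOn_Ioc]
  have hc : ContinuousOn y (Icc 0 b) :=
    (intervalIntegral.continuousOn_primitive hg').congr hy
  obtain ⟨M, hM⟩ := isCompact_Icc.exists_bound_of_continuousOn hc
  have hM0 : 0 ≤ M := (norm_nonneg _).trans (hM 0 ⟨le_rfl, hb⟩)
  have hind : ∀ k : ℕ, ∀ t ∈ Icc 0 b, y t ≤ M * ((K * t) ^ k / k.factorial) := by
    intro k
    induction k with
    | zero =>
      intro t ht
      simp only [pow_zero, Nat.factorial_zero, Nat.cast_one, div_one, mul_one]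
      exact (le_abs_self _).trans (hM t ht)
    | succ k ih =>
      intro t ht
      rw [hy t ht]
      have hsub : Ioc 0 t ⊆ Ioc 0 b := Ioc_subset_Ioc_right ht.2
      have h1 : ∫ s in Ioc 0 t, g s ≤ ∫ s in Ioc 0 t, K * (M * ((K * s) ^ k / k.factorial)) := by
        apply setIntegral_mono_on (hg.mono_set hsub) _ measurableSet_Ioc
        · intro s hs
          refine (hgy s (hsub hs)).trans (mul_le_mul_of_nonneg_left ?_ hK)
          exact ih s ⟨hs.1.le, (hsub hs).2⟩
        · apply Continuous.integrableOn_Ioc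
          fun_prop
      refine h1.trans (le_of_eq ?_)
      rw [← intervalIntegral.integral_of_le ht.1]
      have e : (fun s : ℝ => K * (M * ((K * s) ^ k / k.factorial)))
          = fun s => (K ^ (k + 1) * M / k.factorial) * s ^ k := by
        funext s
        rw [mul_pow]
        ring
      rw [e, intervalIntegral.integral_const_mul, integral_pow, Nat.factorial_succ]
      push_cast
      have h2 : (k.factorial : ℝ) ≠ 0 := by positivity
      have h3 : (k : ℝ) + 1 ≠ 0 := by positivity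
      rw [zero_pow (by omega)]
      field_simp
      ring
  intro t ht
  have h1 : Tendsto (fun k : ℕ => M * ((K * t) ^ k / k.factorial)) atTop (𝓝 (M * 0)) :=
    (FloorSemiring.tendsto_pow_div_factorial_atTop (K * t)).const_mul _
  rw [mul_zero] at h1
  exact ge_of_tendsto' h1 fun k => hind k t ht

theorem Eg_eq {T : ℝ} {d : ℝ → V → V} (h : Cls T d) {t : ℝ} (ht : t ∈ Ioo 0 T) :
    ∫ x, Eg T d (t, x) = 2 * ip (dtf d t) (d t) := by
  unfold ip
  rw [← integral_const_mul]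
  congr 1
  funext x
  unfold Eg
  rw [Finset.mul_sum]
  apply Finset.sum_congr rfl
  intro i _
  have h1 := (h.sm.time_deriv ht x i).deriv
  show 2 * (d t x i * FD T d (t, x) (1, 0) i) = 2 * (deriv (fun s => d s x i) t * d t x i)
  rw [h1]
  ring

theorem eq_zero_of_ip {v : V → V} (hv : Continuous v) (hl : L2F v) (h : ip v v ≤ 0) (x : V) :
    v x = 0 := by
  have hnn : ∀ y, 0 ≤ ∑ i, v y i * v y i := fun y =>
    Finset.sum_nonneg fun i _ => mul_self_nonneg _
  have h0 : ip v v = 0 := le_antisymm h (integral_nonneg hnn)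
  have h1 := (integral_eq_zero_iff_of_nonneg hnn (ipL_int hl hl)).1 h0
  have hc : Continuous (fun y => ∑ i, v y i * v y i) := by
    apply continuous_finsetSum
    intro i _
    exact ((continuous_apply i).comp hv).mul ((continuous_apply i).comp hv)
  have h2 := (Continuous.ae_eq_iff_eq volume hc continuous_zero).1 h1
  have h3 : ∑ i, v x i * v x i = 0 := congrFun h2 x
  rw [Finset.sum_eq_zero_iff_of_nonneg fun i _ => mul_self_nonneg _] at h3
  funext i
  exact mul_self_eq_zero.1 (h3 i (Finset.mem_univ i))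

theorem cls_unique {T ν : ℝ} (hν : 0 ≤ ν) {w u : ℝ → V → V} (hw : Cls T w) (hu : Cls T u)
    (h0 : ∀ x, w 0 x = u 0 x) (hdiv : ∀ t ∈ Ioo 0 T, ∀ x, dvg (w t) x = 0)
    (hG : ∀ s ∈ Ico 0 T, ∃ G, ∀ t ∈ Icc 0 s, ∀ x i j, |pd j (fun y => u t y i) x| ≤ G)
    (e1 : ∀ t ∈ Ioo 0 T, ∫ x, ∑ i, residual ν w t x i * (w t x - u t x) i = 0)
    (e2 : ∀ t ∈ Ioo 0 T, ∫ x, ∑ i, residual ν u t x i * (w t x - u t x) i = 0) :
    ∀ t ∈ Ico 0 T, w t = u t := by
  intro t ht
  obtain ⟨G, hG⟩ := hG t ht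
  have hG0 : 0 ≤ G := (abs_nonneg _).trans (hG 0 ⟨le_rfl, ht.1⟩ 0 0 0)
  set d : ℝ → V → V := fun s x => w s x - u s x with hd
  have hdC : Cls T d := hw.sub hu
  have hd0 : ip (d 0) (d 0) = 0 := by
    apply ip_zero_of
    intro x
    left
    rw [hd]
    simp only
    rw [h0, sub_self]
  have key := gron (y := fun s => ip (d s) (d s)) (g := fun s => ∫ x, Eg T d (s, x))
    (b := t) (K := 6 * G) (by positivity) ht.1 (hdC.energy ht).1
    (fun s hs => by
      have h1 := (hdC.energy (t := s) ⟨hs.1, hs.2.trans_lt ht.2⟩).2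
      rw [hd0, sub_zero] at h1
      exact h1)
    (fun s hs => by
      have hs' : s ∈ Ioo 0 T := ⟨hs.1, hs.2.trans_lt ht.2⟩
      have sd := hdC.sl (t := s) ⟨hs.1.le, hs'.2⟩
      have su := hu.sl (t := s) ⟨hs.1.le, hs'.2⟩
      show ∫ x, Eg T d (s, x) ≤ 6 * G * ip (d s) (d s)
      rw [Eg_eq hdC hs']
      have h1 := diff_balance hw hu hs' (hdiv s hs') (e1 s hs') (e2 s hs')
      have h2 := adv_bound sd su (hG s ⟨hs.1.le, hs.2⟩)
      have h3 := Dir_nonneg (d s)
      have h4 := (abs_le.1 h2).1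
      have h5 : ip (dtf d s) (d s) = -ip (adv (d s) (u s)) (d s) - ν * Dir (d s) (d s) := h1
      rw [h5]
      nlinarith [mul_nonneg hν h3])
  have h1 := key t ⟨ht.1, le_rfl⟩
  have sd := hdC.sl ht
  funext x
  have h2 := eq_zero_of_ip sd.sm.continuous sd.l0 h1 x
  rw [hd] at h2
  exact sub_eq_zero.1 h2

theorem cls_energy {T ν : ℝ} {w : ℝ → V → V} (hw : Cls T w)
    (hdiv : ∀ t ∈ Ioo 0 T, ∀ x, dvg (w t) x = 0)
    (e1 : ∀ t ∈ Ioo 0 T, ∫ x, ∑ i, residual ν w t x i * w t x i = 0) {t : ℝ}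
    (ht : t ∈ Ico 0 T) :
    ip (w t) (w t) + 2 * ν * ∫ s in (0 : ℝ)..t, Dir (w s) (w s) = ip (w 0) (w 0) := by
  have h1 := (hw.energy ht).2
  have h2 : ∫ s in Ioc 0 t, ∫ x, Eg T w (s, x) = ∫ s in Ioc 0 t, -(2 * ν) * Dir (w s) (w s) := by
    apply setIntegral_congr_fun measurableSet_Ioc
    intro s hs
    have hs' : s ∈ Ioo 0 T := ⟨hs.1, hs.2.trans_lt ht.2⟩
    show ∫ x, Eg T w (s, x) = -(2 * ν) * Dir (w s) (w s)
    rw [Eg_eq hw hs', self_balance hw hs' (hdiv s hs') (e1 s hs')]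
    ring
  rw [h2, integral_const_mul, ← intervalIntegral.integral_of_le ht.1] at h1
  linarith

end Pool.Agent.Run7.h407
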