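import Mathlib
import Pool.Agent.Run7.h407.W.Uni

/-!
Smooth fields supported in a fixed ball belong to the class of solutions.
-/

namespace Pool.Agent.Run7.h407

open Set Filter Topology MeasureTheory
open scoped ContDiff

theorem sq_of_bdd {f : V → ℝ} (hf : Continuous f) {R C : ℝ} (hC : ∀ x, |f x| ≤ C)
    (hs : ∀ x, R < ‖x‖ → f x = 0) :
    Sq (C ^ 2 * (volume : Measure V).real (Metric.closedBall 0 R)) f := by
  have hcs : HasCompactSupport f := by
    apply HasCompactSupport.intro (isCompact_closedBall (0 : V) R)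
    intro x hx
    apply hs
    rw [mem_closedBall_zero_iff, not_le] at hx
    exact hx
  have hm : MemLp f 2 volume := hf.memLp_of_hasCompactSupport hcs
  refine ⟨hm, ?_⟩
  have h3 : ∫ x, f x ^ 2 ≤ ∫ x, (Metric.closedBall (0 : V) R).indicator (fun _ => C ^ 2) x := by
    apply integral_mono hm.integrable_sq
    · rw [integrable_indicator_iff measurableSet_closedBall]
      exact integrableOn_const (isCompact_closedBall (0 : V) R).measure_ne_top
    · intro x
      by_cases hx : x ∈ Metric.closedBall (0 : V) R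
      · rw [indicator_of_mem hx]
        simp only
        rw [← sq_abs]
        exact pow_le_pow_left₀ (abs_nonneg _) (hC x) 2
      · rw [indicator_of_notMem hx]
        rw [mem_closedBall_zero_iff, not_le] at hx
        simp only
        rw [hs x hx]
        simp
  rw [integral_indicator measurableSet_closedBall, setIntegral_const, smul_eq_mul, mul_comm] at h3
  exact h3

theorem TF.bdd {T R : ℝ} {w : ℝ → V → V} (h : TF T R w) {s : ℝ} (hs : s ∈ Ico 0 T) :
    ∃ C, 0 ≤ C ∧ ∀ t ∈ Icc 0 s, ∀ x, ‖w t x‖ ≤ C := by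
  have hK : IsCompact (Icc 0 s ×ˢ Metric.closedBall (0 : V) R) :=
    isCompact_Icc.prod (isCompact_closedBall _ _)
  have hKs : Icc 0 s ×ˢ Metric.closedBall (0 : V) R ⊆ Ico 0 T ×ˢ univ := by
    rintro ⟨r, y⟩ ⟨hr, _⟩
    exact ⟨⟨hr.1, hr.2.trans_lt hs.2⟩, mem_univ _⟩
  obtain ⟨C, hC⟩ := hK.exists_bound_of_continuousOn (h.sm.continuousOn.mono hKs)
  refine ⟨max C 0, le_max_right _ _, fun t ht x => ?_⟩
  by_cases hx : x ∈ Metric.closedBall (0 : V) R
  · exact (hC (t, x) ⟨ht, hx⟩).trans (le_max_left _ _)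
  · rw [mem_closedBall_zero_iff, not_le] at hx
    rw [h.sp t ⟨ht.1, ht.2.trans_lt hs.2⟩ x hx, norm_zero]
    exact le_max_right _ _

/-- A spatial derivative of a field. -/
noncomputable def pdf (k : Fin 3) (w : ℝ → V → V) (t : ℝ) (x : V) : V :=
  fun i => pd k (fun y => w t y i) x

theorem TF.der {T R : ℝ} {w : ℝ → V → V} (h : TF T R w) (k : Fin 3) : TF T R (pdf k w) := by
  constructor
  · have h1 : ContDiffOn ℝ ∞ (FD T w) (Ico 0 T ×ˢ univ) :=
      h.sm.fderivWithin ((uniqueDiffOn_Ico 0 T).prod uniqueDiffOn_univ) (by simp)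
    have h2 : ContDiffOn ℝ ∞ (fun z => FD T w z (0, Pi.single k 1)) (Ico 0 T ×ˢ univ) :=
      h1.clm_apply contDiffOn_const
    apply h2.congr
    intro z hz
    funext i
    exact h.space_deriv hz.1 z.2 i k
  · intro t ht x hx
    funext i
    have h1 : (fun y => w t y i) =ᶠ[𝓝 x] fun _ => (0 : ℝ) := by
      have ho : IsOpen {y : V | R < ‖y‖} := isOpen_lt continuous_const continuous_norm
      filter_upwards [ho.mem_nhds hx] with y hy
      rw [h.sp t ht y hy]
      rfl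
    show pd k (fun y => w t y i) x = 0
    rw [pd_congr h1, pd_const]

theorem TF.FD_bdd {T R : ℝ} {w : ℝ → V → V} (h : TF T R w) {s : ℝ} (hs : s ∈ Ico 0 T) :
    ∃ C, 0 ≤ C ∧ ∀ t ∈ Icc 0 s, 0 < t → ∀ x, ‖FD T w (t, x) (1, 0)‖ ≤ C := by
  have hK : IsCompact (Icc 0 s ×ˢ Metric.closedBall (0 : V) R) :=
    isCompact_Icc.prod (isCompact_closedBall _ _)
  have hKs : Icc 0 s ×ˢ Metric.closedBall (0 : V) R ⊆ Ico 0 T ×ˢ univ := by
    rintro ⟨r, y⟩ ⟨hr, _⟩
    exact ⟨⟨hr.1, hr.2.trans_lt hs.2⟩, mem_univ _⟩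
  have hc : ContinuousOn (fun z => FD T w z (1, 0)) (Ico 0 T ×ˢ univ) :=
    h.FD_cont.clm_apply continuousOn_const
  obtain ⟨C, hC⟩ := hK.exists_bound_of_continuousOn (hc.mono hKs)
  refine ⟨max C 0, le_max_right _ _, fun t ht h0 x => ?_⟩
  by_cases hx : x ∈ Metric.closedBall (0 : V) R
  · exact (hC (t, x) ⟨ht, hx⟩).trans (le_max_left _ _)
  · rw [mem_closedBall_zero_iff, not_le] at hx
    have ht' : t ∈ Ioo 0 T := ⟨h0, ht.2.trans_lt hs.2⟩
    have h1 : FD T w (t, x) (1, 0) = 0 := by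
      funext i
      rw [← (h.time_deriv ht' x i).deriv]
      have h2 : (fun s => w s x i) =ᶠ[𝓝 t] fun _ => (0 : ℝ) := by
        filter_upwards [Ioo_mem_nhds ht'.1 ht'.2] with r hr
        rw [h.sp r ⟨hr.1.le, hr.2⟩ x hx]
        rfl
      rw [h2.deriv_eq]
      simp
    rw [h1, norm_zero]
    exact le_max_right _ _

theorem TF.cls {T R : ℝ} {w : ℝ → V → V} (h : TF T R w) : Cls T w := by
  refine ⟨h.sm, fun s hs => ?_⟩
  obtain ⟨C0, hC00, hC0⟩ := h.bdd hs
  have hj : ∀ j, ∃ C, 0 ≤ C ∧ ∀ t ∈ Icc 0 s, ∀ x, ‖pdf j w t x‖ ≤ C := fun j => (h.der j).bdd hs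
  have hjk : ∀ j k, ∃ C, 0 ≤ C ∧ ∀ t ∈ Icc 0 s, ∀ x, ‖pdf j (pdf k w) t x‖ ≤ C :=
    fun j k => ((h.der k).der j).bdd hs
  choose C1 hC10 hC1 using hj
  choose C2 hC20 hC2 using hjk
  obtain ⟨C3, hC30, hC3⟩ := h.FD_bdd hs
  set C : ℝ := C0 + ∑ j, C1 j + ∑ j, ∑ k, C2 j k + C3 with hC
  have s1 : 0 ≤ ∑ j, C1 j := Finset.sum_nonneg fun j _ => hC10 j
  have s2 : 0 ≤ ∑ j, ∑ k, C2 j k :=
    Finset.sum_nonneg fun j _ => Finset.sum_nonneg fun k _ => hC20 j k
  have l1 : ∀ j, C1 j ≤ C := by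
    intro j
    have := Finset.single_le_sum (f := C1) (fun i _ => hC10 i) (Finset.mem_univ j)
    linarith
  have l2 : ∀ j k, C2 j k ≤ C := by
    intro j k
    have h1 := Finset.single_le_sum (f := fun k => C2 j k) (fun i _ => hC20 j i)
      (Finset.mem_univ k)
    have h2 := Finset.single_le_sum (f := fun j => ∑ k, C2 j k)
      (fun i _ => Finset.sum_nonneg fun k _ => hC20 i k) (Finset.mem_univ j)
    linarith
  have l0 : C0 ≤ C := by linarith
  have l3 : C3 ≤ C := by linarith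
  set B : ℝ := C ^ 2 * (volume : Measure V).real (Metric.closedBall 0 R) with hB
  have hB0 : 0 ≤ B := by positivity
  have hC0' : 0 ≤ C := hC00.trans l0
  refine ⟨C + B, fun t ht => ⟨fun x => ?_, fun i => ⟨?_, fun j => ?_, fun j k => ?_, fun h0 => ?_⟩⟩⟩
  · linarith [hC0 t ht x]
  all_goals
    have ht' : t ∈ Ico 0 T := ⟨ht.1, ht.2.trans_lt hs.2⟩
  · refine Sq.mono (sq_of_bdd (R := R) (C := C) ?_ (fun x => ?_) (fun x hx => ?_)) (by linarith)
    · exact (h.slice_CF ht').smc i |>.continuous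
    · rw [← Real.norm_eq_abs]
      exact (norm_le_pi_norm _ i).trans ((hC0 t ht x).trans l0)
    · rw [h.sp t ht' x hx]
      rfl
  · refine Sq.mono (sq_of_bdd (R := R) (C := C) ?_ (fun x => ?_) (fun x hx => ?_)) (by linarith)
    · exact (((h.slice_CF ht').smc i).pd j).continuous
    · rw [← Real.norm_eq_abs]
      exact (norm_le_pi_norm (pdf j w t x) i).trans ((hC1 j t ht x).trans (l1 j))
    · exact congrFun ((h.der j).sp t ht' x hx) i
  · refine Sq.mono (sq_of_bdd (R := R) (C := C) ?_ (fun x => ?_) (fun x hx => ?_)) (by linarith)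
    · exact ((((h.slice_CF ht').smc i).pd k).pd j).continuous
    · rw [← Real.norm_eq_abs]
      exact (norm_le_pi_norm (pdf j (pdf k w) t x) i).trans ((hC2 j k t ht x).trans (l2 j k))
    · exact congrFun (((h.der k).der j).sp t ht' x hx) i
  · have ht2 : t ∈ Ioo 0 T := ⟨h0, ht'.2⟩
    have e : (fun x => deriv (fun s => w s x i) t) = fun x => FD T w (t, x) (1, 0) i := by
      funext x
      exact (h.time_deriv ht2 x i).deriv
    refine Sq.mono (sq_of_bdd (R := R) (C := C) ?_ (fun x => ?_) (fun x hx => ?_)) (by linarith)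
    · rw [e, ← continuousOn_univ]
      exact (h.FDv_cont (1, 0) i).comp (f := fun x : V => (t, x)) (by fun_prop)
        (fun x _ => ⟨ht', mem_univ _⟩)
    · rw [congrFun e x, ← Real.norm_eq_abs]
      exact (norm_le_pi_norm _ i).trans ((hC3 t ht h0 x).trans l3)
    · have h2 : (fun s => w s x i) =ᶠ[𝓝 t] fun _ => (0 : ℝ) := by
        filter_upwards [Ioo_mem_nhds ht2.1 ht2.2] with r hr
        rw [h.sp r ⟨hr.1.le, hr.2⟩ x hx]
        rfl
      rw [h2.deriv_eq]
      simp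

theorem TF.grad_bdd {T R : ℝ} {w : ℝ → V → V} (h : TF T R w) {s : ℝ} (hs : s ∈ Ico 0 T) :
    ∃ G, ∀ t ∈ Icc 0 s, ∀ x i j, |pd j (fun y => w t y i) x| ≤ G := by
  have hj : ∀ j, ∃ C, 0 ≤ C ∧ ∀ t ∈ Icc 0 s, ∀ x, ‖pdf j w t x‖ ≤ C := fun j => (h.der j).bdd hs
  choose C1 hC10 hC1 using hj
  refine ⟨∑ j, C1 j, fun t ht x i j => ?_⟩
  rw [← Real.norm_eq_abs]
  refine (norm_le_pi_norm (pdf j w t x) i).trans ((hC1 j t ht x).trans ?_)
  exact Finset.single_le_sum (f := C1) (fun i _ => hC10 i) (Finset.mem_univ j)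

end Pool.Agent.Run7.h407
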