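import Mathlib
import Pool.Agent.Run7.h407.W.TFC

/-!
The spaces between the span of the dilates and the space given by the constraints.
-/

namespace Pool.Agent.Run7.h407

open Set Filter Topology MeasureTheory
open scoped ContDiff

/-- Weakly divergence-free fields. -/
def WDF (w : V → V) : Prop := ∀ φ : V → ℝ, ContDiff ℝ ∞ φ → HasCompactSupport φ →
  ∫ x, ∑ i, w x i * pd i φ x = 0

/-- The gradient. -/
noncomputable def grd (φ : V → ℝ) (x : V) : V := fun i => pd i φ x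

theorem grd_CF {φ : V → ℝ} (h : ContDiff ℝ ∞ φ) (hc : HasCompactSupport φ) : CF (grd φ) := by
  apply CF.of_comp
  · intro i
    exact Sm.pd h i
  · intro i
    exact pd_cs hc i

theorem ip_grd {v : V → V} (hv : ContDiff ℝ ∞ v) {φ : V → ℝ} (h : ContDiff ℝ ∞ φ)
    (hc : HasCompactSupport φ) : ip v (grd φ) = -∫ x, φ x * dvg v x := by
  have i1 : ∀ i, Integrable (fun x => φ x * pd i (fun y => v y i) x) volume := fun i =>
    integrable_of_cs h.continuous hc ((sm_comp hv i).pd i).continuous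
  have i2 : ∀ i, Integrable (fun x => v x i * grd φ x i) volume := by
    intro i
    have := integrable_of_cs (Sm.pd h i).continuous (pd_cs hc i) (sm_comp hv i).continuous
    refine (congrArg (fun f => Integrable f volume) (funext fun x => ?_)).mp this
    unfold grd
    ring
  unfold ip
  rw [integral_finsetSum _ fun i _ => i2 i]
  have e : (fun x => φ x * dvg v x) = fun x => ∑ i, φ x * pd i (fun y => v y i) x := by
    funext x
    unfold dvg
    rw [Finset.mul_sum]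
  rw [e, integral_finsetSum _ fun i _ => i1 i, ← Finset.sum_neg_distrib]
  apply Finset.sum_congr rfl
  intro i _
  have h1 := ibp h (sm_comp hv i) hc i
  rw [h1, neg_neg]
  congr 1
  funext x
  unfold grd
  ring

theorem wdf_of_dvg {v : V → V} (hv : ContDiff ℝ ∞ v) (hd : ∀ x, dvg v x = 0) : WDF v := by
  intro φ h hc
  have h1 := ip_grd hv h hc
  have h2 : (fun x => φ x * dvg v x) = fun _ => 0 := by
    funext x
    rw [hd, mul_zero]
  rw [h2, integral_zero, neg_zero] at h1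
  exact h1

theorem dvg_of_wdf {v : V → V} (hv : ContDiff ℝ ∞ v) (hd : WDF v) (x : V) : dvg v x = 0 := by
  have hc : Continuous (dvg v) := by
    unfold dvg
    apply continuous_finsetSum
    intro i _
    exact ((sm_comp hv i).pd i).continuous
  have h1 := ae_eq_zero_of_integral_contDiff_smul_eq_zero (μ := (volume : Measure V))
    hc.locallyIntegrable (fun g hg hgc => by
      have h2 := ip_grd hv hg hgc
      have h3 : ip v (grd g) = 0 := hd g hg hgc
      rw [h3] at h2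
      have h4 : ∫ x, g x * dvg v x = 0 := by linarith
      exact h4)
  have h2 := (Continuous.ae_eq_iff_eq volume hc continuous_zero).1 h1
  exact congrFun h2 x

/-- Fields vanishing on a half space which contains the origin in its interior. -/
def Aw (g : V → V) : Prop := ∃ a > 0, ∀ x, x 0 < a → g x = 0

section

variable {μ ε β : ℝ} {ψ : V → V}

theorem Aw.fld (hF : Fld μ ε ψ) : Aw ψ := by
  refine ⟨3 / 4, by norm_num, fun x hx => ?_⟩
  by_contra hcon
  linarith [(hF.supp x hcon).1]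

theorem Aw.dil {g : V → V} (hg : Aw g) {s : ℝ} (hs : 0 < s) : Aw (dil s g) := by
  obtain ⟨a, ha, h⟩ := hg
  refine ⟨a / s ^ 2, by positivity, fun x hx => ?_⟩
  unfold Run7.h407.dil
  rw [h, smul_zero]
  rw [lt_div_iff₀ (by positivity)] at hx
  simp only [Pi.smul_apply, smul_eq_mul]
  linarith

theorem Aw.add {g h : V → V} (hg : Aw g) (hh : Aw h) : Aw (fun x => g x + h x) := by
  obtain ⟨a, ha, h1⟩ := hg
  obtain ⟨b, hb, h2⟩ := hh
  refine ⟨min a b, lt_min ha hb, fun x hx => ?_⟩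
  show g x + h x = 0
  rw [h1 x (hx.trans_le (min_le_left _ _)), h2 x (hx.trans_le (min_le_right _ _)), add_zero]

theorem Aw.sub {g h : V → V} (hg : Aw g) (hh : Aw h) : Aw (fun x => g x - h x) := by
  obtain ⟨a, ha, h1⟩ := hg
  obtain ⟨b, hb, h2⟩ := hh
  refine ⟨min a b, lt_min ha hb, fun x hx => ?_⟩
  show g x - h x = 0
  rw [h1 x (hx.trans_le (min_le_left _ _)), h2 x (hx.trans_le (min_le_right _ _)), sub_zero]

theorem Aw.smul {g : V → V} (hg : Aw g) (c : ℝ) : Aw (fun x => c • g x) := by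
  obtain ⟨a, ha, h1⟩ := hg
  refine ⟨a, ha, fun x hx => ?_⟩
  show c • g x = 0
  rw [h1 x hx, smul_zero]

theorem Aw.adv {g : V → V} (hg : Aw g) (h : V → V) : Aw (adv g h) := by
  obtain ⟨a, ha, h1⟩ := hg
  refine ⟨a, ha, fun x hx => adv_zero (Or.inl ?_)⟩
  filter_upwards [nhds_lt hx] with y hy
  exact h1 y hy

theorem Aw.lap {g : V → V} (hg : Aw g) : Aw (lap g) := by
  obtain ⟨a, ha, h1⟩ := hg
  refine ⟨a, ha, fun x hx => lap_zero ?_⟩
  filter_upwards [nhds_lt hx] with y hy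
  exact h1 y hy

/-- The three constraint fields. -/
noncomputable def Gf (μ ε β : ℝ) (ψ : V → V) : Fin 3 → V → V :=
  ![Ga μ ε β ψ, Gb μ ε β ψ, Gc ψ]

theorem Gf_Aw (hF : Fld μ ε ψ) (hμ : 2 ≤ μ) (β : ℝ) (i : Fin 3) : Aw (Gf μ ε β ψ i) := by
  have hμ0 : 0 < μ := by linarith
  have h0 := Aw.fld hF
  have h1 := h0.dil hμ0
  fin_cases i
  · exact ((h0.adv ψ).smul _).add ((h1.smul _).sub ((h0.dil (inv_pos.2 hμ0)).smul _))
  · exact (((h0.adv _).add (h1.adv _)).smul _).add ((h1.smul _).sub (h0.smul _))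
  · exact (h0.lap.smul _).add (h0.smul _)

theorem Gf_CF (hF : Fld μ ε ψ) (hμ : 2 ≤ μ) (β : ℝ) (i : Fin 3) : CF (Gf μ ε β ψ i) := by
  fin_cases i
  · exact Ga_CF hF hμ β
  · exact Gb_CF hF hμ β
  · exact Gc_CF hF

/-- Beyond a plane only finitely many dilates do not vanish. -/
theorem fin_far (hF : Fld μ ε ψ) (hμ : 2 ≤ μ) {a : ℝ} (ha : 0 < a) :
    ∃ K : ℕ, ∀ x : V, a ≤ x 0 → ∀ n ≥ K, ph μ ψ n x = 0 := by
  have hμ0 : 0 < μ := by linarith
  have h1 : Tendsto (fun m : ℕ => (μ ^ 2) ^ m * a) atTop atTop :=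
    (tendsto_pow_atTop_atTop_of_one_lt (by nlinarith)).atTop_mul_const ha
  obtain ⟨K, hK⟩ := (h1.eventually_gt_atTop (μ ^ 2 + 1 / 4)).exists_forall_of_atTop
  refine ⟨K, fun x hx n hn => ?_⟩
  by_contra hcon
  have h2 := (ph_ne hF hcon).2
  have h3 := hK n hn
  have e : μ ^ (2 * n) = (μ ^ 2) ^ n := by ring
  rw [e] at h2
  have h4 : (μ ^ 2) ^ n * a ≤ (μ ^ 2) ^ n * x 0 := mul_le_mul_of_nonneg_left hx (by positivity)
  linarith

/-- Superpositions of the dilates are orthogonal to `g` if the dilates are. -/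
theorem mem_orth (hF : Fld μ ε ψ) (hμ : 2 ≤ μ) {c : ℕ → ℝ} {v : V → V} (hm : Mem μ ψ c v)
    {g : V → V} (hg : CF g) (ha : Aw g) (h : ∀ k, ip (ph μ ψ k) g = 0) : ip v g = 0 := by
  obtain ⟨a, ha0, ha⟩ := ha
  obtain ⟨K, hK⟩ := fin_far hF hμ ha0
  have e : ∀ x, ∑ i, v x i * g x i
      = ∑ k ∈ Finset.range K, c k * ∑ i, ph μ ψ k x i * g x i := by
    intro x
    rcases lt_or_ge (x 0) a with hx | hx
    · rw [ha x hx]
      simp
    · have h1 : HasSum (fun n => c n • ph μ ψ n x)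
          (∑ n ∈ Finset.range K, c n • ph μ ψ n x) := by
        apply hasSum_sum_of_ne_finset_zero
        intro n hn
        rw [Finset.mem_range, not_lt] at hn
        rw [hK x hx n hn, smul_zero]
      have h2 := (hm x).unique h1
      rw [h2]
      simp_rw [Finset.mul_sum]
      rw [Finset.sum_comm]
      apply Finset.sum_congr rfl
      intro i _
      rw [Finset.sum_apply, Finset.sum_mul]
      apply Finset.sum_congr rfl
      intro k _
      simp only [Pi.smul_apply, smul_eq_mul]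
      ring
  unfold ip
  simp_rw [e]
  rw [integral_finsetSum _ fun k _ =>
    (ip_int (ph_CF hF hμ k).sm.continuous hg).const_mul _]
  apply Finset.sum_eq_zero
  intro k _
  rw [integral_const_mul]
  have := h k
  unfold ip at this
  rw [this, mul_zero]

/-- The linear spaces between the span of the dilates of `ψ` and the space of the square
integrable weakly divergence-free fields which satisfy the constraints. -/
structure IsSp (μ : ℝ) (ψ : V → V) (G : Fin 3 → V → V) (W : Submodule ℝ (V → V)) : Prop where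
  l2 : ∀ w ∈ W, L2F w
  wdf : ∀ w ∈ W, WDF w
  c0 : ∀ w ∈ W, ip w (dil μ⁻¹ ψ) = 0
  cs : ∀ w ∈ W, ∀ (n : ℕ) (i : Fin 3), ip w (dil (μ ^ n) (G i)) = 0
  mem : ∀ v : V → V, ContDiff ℝ ∞ v → HasCompactSupport v → (∃ c, Mem μ ψ c v) → v ∈ W

theorem IsSp.con {W : Submodule ℝ (V → V)} (h : IsSp μ ψ (Gf μ ε β ψ) W) {w : V → V}
    (hw : w ∈ W) : Con μ ε β ψ w := by
  refine ⟨h.l2 w hw, ?_, fun n => ?_, fun n => ?_, fun n => ?_⟩
  · rw [ip_comm]
    exact h.c0 w hw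
  · rw [ip_comm]
    exact h.cs w hw n 0
  · rw [ip_comm]
    exact h.cs w hw n 1
  · rw [ip_comm]
    exact h.cs w hw n 2

/-- The space of all square integrable weakly divergence-free fields which satisfy the
constraints. -/
noncomputable def Wmax (μ : ℝ) (ψ : V → V) (G : Fin 3 → V → V) (hψ : L2F (dil μ⁻¹ ψ))
    (hG : ∀ (n : ℕ) i, L2F (dil (μ ^ n) (G i))) : Submodule ℝ (V → V) where
  carrier := {w | L2F w ∧ WDF w ∧ ip w (dil μ⁻¹ ψ) = 0 ∧
    ∀ (n : ℕ) (i : Fin 3), ip w (dil (μ ^ n) (G i)) = 0}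
  add_mem' := by
    rintro u v ⟨u1, u2, u3, u4⟩ ⟨v1, v2, v3, v4⟩
    refine ⟨u1.add v1, fun φ h hc => ?_, ?_, fun n i => ?_⟩
    · have h1 := ipL_add u1 v1 (grd_CF h hc).l2
      have h2 : ip u (grd φ) = 0 := u2 φ h hc
      have h3 : ip v (grd φ) = 0 := v2 φ h hc
      rw [h2, h3, add_zero] at h1
      exact h1
    · have h1 := ipL_add u1 v1 hψ
      rw [u3, v3, add_zero] at h1
      exact h1
    · have h1 := ipL_add u1 v1 (hG n i)
      rw [u4, v4, add_zero] at h1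
      exact h1
  zero_mem' := by
    refine ⟨fun i => MemLp.zero, fun φ h hc => ?_, ?_, fun n i => ?_⟩
    · simp
    · exact ip_zero_of fun x => Or.inl rfl
    · exact ip_zero_of fun x => Or.inl rfl
  smul_mem' := by
    rintro c u ⟨u1, u2, u3, u4⟩
    refine ⟨u1.smul c, fun φ h hc => ?_, ?_, fun n i => ?_⟩
    · have h1 := ip_smul_left c u (grd φ)
      have h2 : ip u (grd φ) = 0 := u2 φ h hc
      rw [h2, mul_zero] at h1
      exact h1
    · have h1 := ip_smul_left c u (dil μ⁻¹ ψ)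
      rw [u3, mul_zero] at h1
      exact h1
    · have h1 := ip_smul_left c u (dil (μ ^ n) (G i))
      rw [u4, mul_zero] at h1
      exact h1

theorem Wmax_isSp (hF : Fld μ ε ψ) (hμ : 2 ≤ μ) (hβ1 : tri (dil μ ψ) ψ (dil μ ψ) = -β)
    (hβ2 : tri ψ ψ (dil μ ψ) = -(ε * β)) (hψ : L2F (dil μ⁻¹ ψ))
    (hG : ∀ (n : ℕ) i, L2F (dil (μ ^ n) (Gf μ ε β ψ i))) :
    IsSp μ ψ (Gf μ ε β ψ) (Wmax μ ψ (Gf μ ε β ψ) hψ hG) := by
  have hμ0 : 0 < μ := by linarith
  refine ⟨fun w hw => hw.1, fun w hw => hw.2.1, fun w hw => hw.2.2.1, fun w hw => hw.2.2.2, ?_⟩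
  rintro v hv hvc ⟨c, hm⟩
  have hC : CF v := ⟨hv, hvc⟩
  have hph : ∀ k, Con μ ε β ψ (ph μ ψ k) := ph_Con hF hμ hβ1 hβ2
  refine ⟨hC.l2, wdf_of_dvg hv (mem_dvg hF hμ hm hv), ?_, fun n i => ?_⟩
  · apply mem_orth hF hμ hm (dil_CF hF.cf (inv_ne_zero hμ0.ne'))
      ((Aw.fld hF).dil (inv_pos.2 hμ0))
    intro k
    rw [ip_comm]
    exact (hph k).c0
  · apply mem_orth hF hμ hm (dil_CF (Gf_CF hF hμ β i) (by positivity))
      ((Gf_Aw hF hμ β i).dil (by positivity))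
    intro k
    rw [ip_comm]
    fin_cases i
    · exact (hph k).ca n
    · exact (hph k).cb n
    · exact (hph k).cc n

/-- Solutions of the projected equations. -/
structure IsProj (W : Submodule ℝ (V → V)) (ν T : ℝ) (u : ℝ → V → V) : Prop where
  cls : Cls T u
  mem : ∀ t ∈ Ico 0 T, u t ∈ W
  eqn : ∀ t ∈ Ioo 0 T, ∀ w ∈ W, ∫ x, ∑ i, residual ν u t x i * w x i = 0

theorem coef_rap {p : Par} {Tb : ℝ} {A : ℕ → ℝ → ℝ} (S : Sol p Tb A) {κ : ℝ} (hμ : 2 ≤ μ) {t : ℝ}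
    (ht : t ∈ Ico 0 Tb) : Rap (fun n => coef μ κ A n t) := by
  have hμ0 : 0 < μ := by linarith
  have h1 : Rap (fun n => A n t) := by
    apply Rap.intro
    intro c hc
    obtain ⟨C, hC⟩ := S.decay t ht.2 c hc
    exact ⟨C, fun j => hC j t ⟨ht.1, le_rfl⟩⟩
  exact h1.shift.geom (1 / κ) (by positivity)

/-- The velocity field solves the equations projected on each of the spaces. -/
theorem vel_isProj {p : Par} {Tb : ℝ} {A : ℕ → ℝ → ℝ} (S : Sol p Tb A) {κ ν : ℝ}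
    (hμ : 2 ≤ μ) (hF : Fld μ ε ψ) (hβ1 : tri (dil μ ψ) ψ (dil μ ψ) = -β)
    (hβ2 : tri ψ ψ (dil μ ψ) = -(ε * β)) (hfit : Fit μ ε β ν ψ p κ)
    {W : Submodule ℝ (V → V)} (hW : IsSp μ ψ (Gf μ ε β ψ) W) :
    IsProj W ν Tb (vel μ κ ψ A) := by
  obtain ⟨R, _, hR⟩ := fld_radius hF
  have hT := vel_TF (κ := κ) S hμ hF hR
  refine ⟨hT.cls, fun t ht => ?_, fun t ht w hw => ?_⟩
  · exact hW.mem _ (hT.slice_CF ht).sm (hT.slice_CF ht).cs ⟨_, vel_mem S hμ hF ht⟩
  · exact test_zero hF hμ hfit.N hβ1 hβ2 (T' := Tb) (c := coef μ κ A)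
      (fun s hs => vel_mem S hμ hF hs) ht (fun n => coef_deriv S μ κ n ht) ν
      (fun m => vel_galerkin S hμ hF hβ1 hβ2 hfit ht m) (coef_rap S hμ ⟨ht.1.le, ht.2⟩)
      (hW.con hw)

theorem IsProj.dvg {W : Submodule ℝ (V → V)} {G : Fin 3 → V → V} (hW : IsSp μ ψ G W) {ν T : ℝ}
    {u : ℝ → V → V} (h : IsProj W ν T u) {t : ℝ} (ht : t ∈ Ico 0 T) (x : V) :
    dvg (u t) x = 0 :=
  dvg_of_wdf (h.cls.sl ht).sm (hW.wdf _ (h.mem t ht)) x

/-- Every solution of the projected equations satisfies the energy equality. -/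
theorem IsProj.energy {W : Submodule ℝ (V → V)} {G : Fin 3 → V → V} (hW : IsSp μ ψ G W) {ν T : ℝ}
    {u : ℝ → V → V} (h : IsProj W ν T u) {t : ℝ} (ht : t ∈ Ico 0 T) :
    ip (u t) (u t) + 2 * ν * ∫ s in (0 : ℝ)..t, Dir (u s) (u s) = ip (u 0) (u 0) :=
  cls_energy h.cls (fun s hs x => h.dvg hW ⟨hs.1.le, hs.2⟩ x)
    (fun _ hs => h.eqn _ hs _ (h.mem _ ⟨hs.1.le, hs.2⟩)) ht

theorem IsProj.restrict {W : Submodule ℝ (V → V)} {ν T T' : ℝ} {u : ℝ → V → V}
    (h : IsProj W ν T u) (hT : T' ≤ T) : IsProj W ν T' u :=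
  ⟨h.cls.restrict hT, fun t ht => h.mem t ⟨ht.1, ht.2.trans_le hT⟩,
    fun t ht => h.eqn t ⟨ht.1, ht.2.trans_le hT⟩⟩

/-- Uniqueness. -/
theorem proj_unique {W : Submodule ℝ (V → V)} {G : Fin 3 → V → V} (hW : IsSp μ ψ G W) {ν T : ℝ}
    (hν : 0 ≤ ν) {w u : ℝ → V → V} (hw : IsProj W ν T w) (hu : IsProj W ν T u)
    (hG : ∀ s ∈ Ico 0 T, ∃ G, ∀ t ∈ Icc 0 s, ∀ x i j, |pd j (fun y => u t y i) x| ≤ G)
    (h0 : ∀ x, w 0 x = u 0 x) : ∀ t ∈ Ico 0 T, w t = u t := by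
  have hd : ∀ t ∈ Ioo 0 T, (fun x => w t x - u t x) ∈ W := fun t ht =>
    W.sub_mem (hw.mem t ⟨ht.1.le, ht.2⟩) (hu.mem t ⟨ht.1.le, ht.2⟩)
  exact cls_unique hν hw.cls hu.cls h0 (fun t ht x => hw.dvg hW ⟨ht.1.le, ht.2⟩ x) hG
    (fun t ht => hw.eqn t ht _ (hd t ht)) (fun t ht => hu.eqn t ht _ (hd t ht))

end

end Pool.Agent.Run7.h407
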