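import Mathlib
import Pool.Agent.Run7.h407.W.Space

/-!
Assembly.
-/

namespace Pool.Agent.Run7.h407

open Set Filter Topology MeasureTheory
open scoped ContDiff

theorem proj_max {p : Par} {Tb : ℝ} {A : ℕ → ℝ → ℝ} (S : Sol p Tb A) {μ κ ε β ν : ℝ}
    (hν : 0 ≤ ν) (hμ : 2 ≤ μ) {ψ : V → V} (hF : Fld μ ε ψ)
    (hβ1 : tri (dil μ ψ) ψ (dil μ ψ) = -β)
    (hβ2 : tri ψ ψ (dil μ ψ) = -(ε * β)) (hfit : Fit μ ε β ν ψ p κ)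
    {W : Submodule ℝ (V → V)} (hW : IsSp μ ψ (Gf μ ε β ψ) W) {T' : ℝ} {w : ℝ → V → V}
    (hw : IsProj W ν T' w) (h0 : ∀ x, w 0 x = vel μ κ ψ A 0 x) :
    T' ≤ Tb ∧ ∀ t ∈ Ico 0 T', w t = vel μ κ ψ A t := by
  obtain ⟨R, _, hR⟩ := fld_radius hF
  have hT := vel_TF (κ := κ) S hμ hF hR
  have hu := vel_isProj S hμ hF hβ1 hβ2 hfit hW
  have hle : T' ≤ Tb := by
    by_contra hcon
    push Not at hcon
    have h1 := proj_unique hW hν (hw.restrict hcon.le) hu (fun s hs => hT.grad_bdd hs) h0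
    obtain ⟨C, hC⟩ := hw.cls.bd Tb ⟨S.Tpos.le, hcon⟩
    obtain ⟨x₀, hx0, hψ1, hψ2⟩ := hF.pt
    obtain ⟨t, ht, x, hx, hM⟩ := vel_blow S hμ hF hfit hx0 hψ1 (b := 0) S.Tpos le_rfl C
    have h2 := (hC t ⟨ht.1.le, ht.2.le⟩).1 x
    rw [h1 t ⟨ht.1.le, ht.2⟩] at h2
    linarith
  refine ⟨hle, fun t ht => ?_⟩
  exact proj_unique hW hν hw (hu.restrict hle)
    (fun s hs => hT.grad_bdd ⟨hs.1, hs.2.trans_le hle⟩) h0 t ht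

theorem exists_mu' {δ : ℝ} (hδ : 0 < δ) (M : ℝ) : ∃ μ : ℝ, M < μ ∧ 100 ≤ μ ∧ 16 ≤ (μ ^ 2) ^ δ := by
  have h1 : Tendsto (fun x : ℝ => x ^ δ) atTop atTop := tendsto_rpow_atTop hδ
  have h2 : Tendsto (fun x : ℝ => x ^ 2) atTop atTop := tendsto_pow_atTop (by norm_num)
  obtain ⟨μ, ⟨h0, h3⟩, h4⟩ := (((eventually_gt_atTop M).and (eventually_ge_atTop 100)).and
    ((h1.comp h2).eventually_ge_atTop 16)).exists
  exact ⟨μ, h0, h3, h4⟩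

theorem mainW (δ : ℝ) (hδ : 0 < δ) (M : ℝ) : ∃ (μ : ℝ) (ψ : V → V) (G : Fin 3 → V → V),
    M < μ ∧ 1 < μ ∧ ContDiff ℝ ∞ ψ ∧ HasCompactSupport ψ ∧ (∀ x, dvg ψ x = 0) ∧ 0 < ip ψ ψ ∧
    (∀ m n, m ≠ n → ip (ph μ ψ m) (ph μ ψ n) = 0 ∧ Dir (ph μ ψ m) (ph μ ψ n) = 0) ∧
    (∀ i, ContDiff ℝ ∞ (G i) ∧ HasCompactSupport (G i) ∧ ∀ᶠ x in 𝓝 0, G i x = 0) ∧
    (∃ W : Submodule ℝ (V → V), IsSp μ ψ G W ∧ ∀ w, w ∈ W ↔ L2F w ∧ WDF w ∧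
      ip w (dil μ⁻¹ ψ) = 0 ∧ ∀ (n : ℕ) (i : Fin 3), ip w (dil (μ ^ n) (G i)) = 0) ∧
    ∃ R A₀ : ℝ, 0 < R ∧ 0 < A₀ ∧ ∀ ν ≥ 0, ∀ a > 0, A₀ * ν ≤ a →
      ∃ T, 0 < T ∧ T ≤ A₀ / a ∧ ∃ u : ℝ → V → V,
        (∀ x, u 0 x = a • ψ x) ∧
        (∀ t ∈ Ico 0 T, ∀ x, R < ‖x‖ → u t x = 0) ∧
        (∃ C, ∀ t ∈ Ico 0 T, ∀ x, ‖u t x‖ * ‖x‖ ^ (1 + δ) ≤ C) ∧
        Tendsto (fun t => ∫ x, ‖u t x‖ ^ 3) (𝓝[<] T) atTop ∧
        (∀ M, ∀ᶠ t in 𝓝[<] T, ∃ x, M < ‖u t x‖) ∧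
        ∀ W : Submodule ℝ (V → V), IsSp μ ψ G W → IsProj W ν T u ∧
          ∀ (T' : ℝ) (w : ℝ → V → V), IsProj W ν T' w → (∀ x, w 0 x = a • ψ x) →
            T' ≤ T ∧ ∀ t ∈ Ico 0 T', w t = u t := by
  obtain ⟨μ, hMμ, hμ100, h16⟩ := exists_mu' hδ M
  have hμ : 2 ≤ μ := by linarith
  have hμ0 : 0 < μ := by linarith
  have hΛ8 : 100000000 ≤ μ ^ 4 := by
    calc (100000000 : ℝ) = 100 ^ 4 := by norm_num
      _ ≤ μ ^ 4 := pow_le_pow_left₀ (by norm_num) hμ100 4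
  have hK1 : 100 * μ ^ 4 ≤ μ ^ 5 := by
    have e : μ ^ 5 = μ * μ ^ 4 := by ring
    rw [e]
    exact mul_le_mul_of_nonneg_right hμ100 (by positivity)
  have hK2 : μ ^ 5 ≤ (μ ^ 4) ^ 2 := by
    rw [← pow_mul]
    exact pow_le_pow_right₀ (by linarith) (by norm_num)
  obtain ⟨x1, x2, x3⟩ := exp_facts hΛ8 hK1 hK2
  obtain ⟨ψ, hF⟩ := exists_fld (μ := μ) (ε := Real.exp (-(4 * μ ^ 4))) hμ (Real.exp_pos _)
  obtain ⟨R, hR0, hR⟩ := fld_radius hF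
  obtain ⟨β, hβ0, hβ1, hβ2⟩ := hF.beta
  have hN := ip_pos hF
  have hD := Dir_nonneg ψ
  have hψ : L2F (dil μ⁻¹ ψ) := (dil_CF hF.cf (inv_ne_zero hμ0.ne')).l2
  have hG : ∀ (n : ℕ) i, L2F (dil (μ ^ n) (Gf μ (Real.exp (-(4 * μ ^ 4))) β ψ i)) :=
    fun n i => (dil_CF (Gf_CF hF hμ β i) (by positivity)).l2
  refine ⟨μ, ψ, Gf μ (Real.exp (-(4 * μ ^ 4))) β ψ, hMμ, by linarith, hF.cf.sm, hF.cf.cs, hF.dv, hN,
    fun m n h => orth hF hμ h, fun i => ?_,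
    ⟨Wmax μ ψ _ hψ hG, Wmax_isSp hF hμ hβ1 hβ2 hψ hG, fun w => Iff.rfl⟩, ?_⟩
  · refine ⟨(Gf_CF hF hμ β i).sm, (Gf_CF hF hμ β i).cs, ?_⟩
    obtain ⟨b, hb, h⟩ := Gf_Aw hF hμ β i
    filter_upwards [nhds_lt (show (0 : V) 0 < b from hb)] with y hy
    exact h y hy
  set N := ip ψ ψ with hNdef
  set D := Dir ψ ψ with hDdef
  have hA0 : 0 < 200 * D * μ ^ 4 / β + 9 * μ ^ 4 * N / β := by positivity
  refine ⟨R, 200 * D * μ ^ 4 / β + 9 * μ ^ 4 * N / β, hR0, hA0, ?_⟩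
  intro ν hν a ha haν
  have hd0 : 0 ≤ ν * D / N := by positivity
  have ha0 : 0 < β / N * a := by positivity
  have hda : 200 * (ν * D / N) * μ ^ 4 ≤ β / N * a := by
    have h1 : 200 * D * μ ^ 4 / β * ν ≤ a := by
      have : 0 ≤ 9 * μ ^ 4 * N / β * ν := by positivity
      nlinarith
    have h2 : 200 * (ν * D / N) * μ ^ 4 = β / N * (200 * D * μ ^ 4 / β * ν) := by
      field_simp
    rw [h2]
    exact mul_le_mul_of_nonneg_left h1 (by positivity)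
  set p : Par := ⟨μ ^ 4, μ ^ 5, Real.exp (-(4 * μ ^ 4)), ν * D / N, β / N * a,
    by linarith, hK1, Real.exp_pos _, x1, hd0, ha0, hda, x2, x3⟩ with hp
  have hfit : Fit μ (Real.exp (-(4 * μ ^ 4))) β ν ψ p (β / N) :=
    ⟨rfl, rfl, rfl, hN, hβ0, rfl, rfl⟩
  obtain ⟨Tb, A, S⟩ := exists_sol p
  have hκ0 : β / N ≠ 0 := by positivity
  have hT := vel_TF (κ := β / N) S hμ hF hR
  have hinit : ∀ x, vel μ (β / N) ψ A 0 x = a • ψ x := by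
    intro x
    rw [vel_init S hμ hF x]
    congr 1
    show β / N * a / (β / N) = a
    field_simp
  refine ⟨Tb, S.Tpos, ?_, vel μ (β / N) ψ A, hinit, hT.sp, vel_pointwise S hμ hF hfit hδ h16,
    vel_cubic S hμ hF hfit, vel_sup S hμ hF hfit,
    fun W hW => ⟨vel_isProj S hμ hF hβ1 hβ2 hfit hW, fun T' w hw h0 => ?_⟩⟩
  · refine S.Tle.trans ?_
    show 9 * μ ^ 4 / (β / N * a) ≤ (200 * D * μ ^ 4 / β + 9 * μ ^ 4 * N / β) / a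
    have h1 : 9 * μ ^ 4 / (β / N * a) = (9 * μ ^ 4 * N / β) / a := by
      field_simp
    rw [h1]
    apply div_le_div_of_nonneg_right _ ha.le
    have : 0 ≤ 200 * D * μ ^ 4 / β := by positivity
    linarith
  · exact proj_max S hν hμ hF hβ1 hβ2 hfit hW hw fun x => by rw [h0, hinit]

end Pool.Agent.Run7.h407
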